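import Pool.Agent.K6.H21.MW.Imp3

set_option autoImplicit false

/-! From a tree ball of a graph to an environment. -/

namespace Pool.Agent.K6.H21.MW

open Set MeasureTheory ProbabilityTheory Filter Topology Pool.Agent.Helper31_MW

variable {d : ℕ}

theorem gg_memK {V : Type} (G : SimpleGraph V) (K : Set (Nd d))
    (hK : ∀ (s : Bool) (i : Fin d) (l : List (Fin d)), (s, i :: l) ∈ K → (s, l) ∈ K)
    (hu : (false, []) ∈ K) (hv : (true, []) ∈ K) (f : Nd d → V)
    (hadj : ∀ x y : Nd d, x ∈ K → y ∈ K → (T d).Adj x y → G.Adj (f x) (f y)) (y : Nd d)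
    (hy : y ∈ K) : Sym2.map f (J_I1_indep.gg y) ∈ G.edgeSet := by
  unfold J_I1_indep.gg
  split_ifs with h
  · rw [Sym2.map_mk, SimpleGraph.mem_edgeSet]
    exact hadj _ _ hu hv (Or.inr ⟨by simp, rfl, rfl⟩)
  · rw [Sym2.map_mk, SimpleGraph.mem_edgeSet]
    obtain ⟨b, l⟩ := y
    cases l with
    | nil => exact absurd rfl h
    | cons i l => exact hadj _ _ (hK b i l hy) hy (Or.inl ⟨rfl, Or.inl ⟨i, rfl⟩⟩)

theorem gg_injK {V : Type} (K : Set (Nd d))
    (hK : ∀ (s : Bool) (i : Fin d) (l : List (Fin d)), (s, i :: l) ∈ K → (s, l) ∈ K)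
    (hu : (false, []) ∈ K) (hv : (true, []) ∈ K) (f : Nd d → V)
    (hf : Set.InjOn f K) (y z : Nd d) (hy : y ≠ (true, []))
    (hz : z ≠ (true, [])) (hyr : y ∈ K) (hzr : z ∈ K)
    (h : Sym2.map f (J_I1_indep.gg y) = Sym2.map f (J_I1_indep.gg z)) : y = z := by
  obtain ⟨b, l⟩ := y
  obtain ⟨b', l'⟩ := z
  have h0 : ∀ b : Bool, ((b, []) : Nd d) ∈ K := by
    intro b
    cases b
    · exact hu
    · exact hv
  cases l with
  | nil =>
    have hb : b = false := by
      cases b
      · rfl
      · exact absurd rfl hy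
    subst hb
    cases l' with
    | nil =>
      have hb' : b' = false := by
        cases b'
        · rfl
        · exact absurd rfl hz
      rw [hb']
    | cons i' l' =>
      exfalso
      have e1 : J_I1_indep.gg ((false, []) : Nd d) = s((false, []), (true, [])) := by
        simp [J_I1_indep.gg]
      have e2 : J_I1_indep.gg ((b', i' :: l') : Nd d) = s((b', l'), (b', i' :: l')) := by
        simp [J_I1_indep.gg]
      rw [e1, e2, Sym2.map_mk, Sym2.map_mk, Sym2.eq_iff] at h
      rcases h with ⟨_, h2⟩ | ⟨h1, _⟩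
      · have := hf (h0 true) hzr h2
        simp at this
      · have := hf (h0 false) hzr h1
        simp at this
  | cons i l =>
    cases l' with
    | nil =>
      exfalso
      have hb' : b' = false := by
        cases b'
        · rfl
        · exact absurd rfl hz
      subst hb'
      have e1 : J_I1_indep.gg ((false, []) : Nd d) = s((false, []), (true, [])) := by
        simp [J_I1_indep.gg]
      have e2 : J_I1_indep.gg ((b, i :: l) : Nd d) = s((b, l), (b, i :: l)) := by
        simp [J_I1_indep.gg]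
      rw [e1, e2, Sym2.map_mk, Sym2.map_mk, Sym2.eq_iff] at h
      rcases h with ⟨_, h2⟩ | ⟨_, h1⟩
      · have := hf hyr (h0 true) h2
        simp at this
      · have := hf hyr (h0 false) h1
        simp at this
    | cons i' l' =>
      have e1 : J_I1_indep.gg ((b', i' :: l') : Nd d) = s((b', l'), (b', i' :: l')) := by
        simp [J_I1_indep.gg]
      have e2 : J_I1_indep.gg ((b, i :: l) : Nd d) = s((b, l), (b, i :: l)) := by
        simp [J_I1_indep.gg]
      rw [e1, e2, Sym2.map_mk, Sym2.map_mk, Sym2.eq_iff] at h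
      rcases h with ⟨_, h2⟩ | ⟨h1, h2⟩
      · exact hf hyr hzr h2
      · exfalso
        have h3 := hf (hK _ _ _ hyr) hzr h1
        have h4 := hf hyr (hK _ _ _ hzr) h2
        have h5 : l.length = l'.length + 1 := by
          rw [(Prod.mk.inj h3).2, List.length_cons]
        have h6 : l.length + 1 = l'.length := by
          rw [← (Prod.mk.inj h4).2, List.length_cons]
        omega

/-- Adding constants to an independent family. -/
theorem indep_extend {ι Ω : Type} [MeasurableSpace Ω] {P : Measure Ω} [IsProbabilityMeasure P]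
    (Kp : ι → Prop) (f : ι → Ω → ℝ) (h : iIndepFun (fun i : {i // Kp i} => f i) P)
    (h0 : ∀ i, ¬ Kp i → ∀ ω, f i ω = 0) : iIndepFun f P := by
  classical
  rw [iIndepFun_iff_measure_inter_preimage_eq_mul]
  intro S sets hs
  by_cases hbad : ∃ i ∈ S, ¬ Kp i ∧ (0 : ℝ) ∉ sets i
  · obtain ⟨i, hi, hK, hi0⟩ := hbad
    have e : f i ⁻¹' sets i = ∅ := by
      ext ω
      simp only [Set.mem_preimage, Set.mem_empty_iff_false, iff_false]
      rw [h0 i hK ω]
      exact hi0
    rw [Finset.prod_eq_zero hi (by rw [e, measure_empty])]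
    refine measure_mono_null ?_ (measure_empty (μ := P))
    rw [← e]
    exact Set.biInter_subset_of_mem (t := fun i => f i ⁻¹' sets i) hi
  · push Not at hbad
    have e : ∀ i ∈ S, ¬ Kp i → f i ⁻¹' sets i = univ := by
      intro i hi hK
      ext ω
      simp only [Set.mem_preimage, Set.mem_univ, iff_true]
      rw [h0 i hK ω]
      exact hbad i hi hK
    have h1 := h.measure_inter_preimage_eq_mul (S.subtype Kp) (sets := fun i => sets i)
      (fun i hi => hs i (Finset.mem_subtype.1 hi))
    have e1 : (⋂ i ∈ S, f i ⁻¹' sets i) =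
        ⋂ i ∈ S.subtype Kp, (f (i : ι)) ⁻¹' sets (i : ι) := by
      ext ω
      simp only [Set.mem_iInter]
      constructor
      · intro h2 i hi
        exact h2 i (Finset.mem_subtype.1 hi)
      · intro h2 i hi
        by_cases hK : Kp i
        · exact h2 ⟨i, hK⟩ (Finset.mem_subtype.2 hi)
        · rw [e i hi hK]
          trivial
    have e2 : ∏ i ∈ S, P (f i ⁻¹' sets i) =
        ∏ i ∈ S.subtype Kp, P ((f (i : ι)) ⁻¹' sets (i : ι)) := by
      rw [Finset.prod_subtype_eq_prod_filter (f := fun i => P (f i ⁻¹' sets i)), Finset.prod_filter]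
      refine Finset.prod_congr rfl fun i hi => ?_
      split_ifs with hK
      · rfl
      · rw [e i hi hK, measure_univ]
    rw [e1, e2]
    exact h1

theorem final_boundK (hd : 1 ≤ d) (μ : Measure ℝ) [IsProbabilityMeasure μ] (hμ : μ (Iio 0) = 0)
    (M : ℝ) (hM0 : 0 ≤ M) (hM : μ (Ioi M) = 0) (r j : ℕ) (hj : 2 * j + 2 ≤ r + 1) (w₀ : ENNReal)
    (hb : ∀ (R : ℕ) (K : Set (Nd d)) (Ω : Type) (_ : MeasurableSpace Ω) (P : Measure Ω)
      (_ : IsProbabilityMeasure P) (c : Nd d → Ω → ℝ), Env R K μ M P c → (false, []) ∈ K →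
      2 * j + 2 ≤ R + 1 →
      P {ω | X (fun y => c y ω) (fun _ => 0) (2 * j) (false, []) +
          X (fun y => c y ω) (fun _ => 0) (2 * j) (true, []) ≤ c (false, []) ω ∧
        c (false, []) ω ≤ X (fun y => c y ω) (fun _ => 0) (2 * j + 1) (false, []) +
          X (fun y => c y ω) (fun _ => 0) (2 * j + 1) (true, [])} ≤ w₀)
    (V : Type) (G : SimpleGraph V) (u v : V) (huv : G.Adj u v)
    (hdeg : ∀ x, (G.neighborSet x).encard ≤ d + 1)
    (hac : (G.induce (ball G u v (r + 1))).IsAcyclic)
    (Ω : Type) [MeasurableSpace Ω] (P : Measure Ω) [IsProbabilityMeasure P]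
    (w : Sym2 V → Ω → ℝ) (hw : ∀ e ∈ G.edgeSet, Measurable (w e))
    (hlaw : ∀ e ∈ G.edgeSet, P.map (w e) = μ)
    (hind : iIndepFun (fun e : G.edgeSet => w e) P) :
    P {ω | ∃ A ⊆ bdry G (ball G u v (r + 1)),
      ¬ (Chi G (ball G u v (r + 1)) (fun e => w e ω) s(u, v) ↔
         Chi G (ball G u v (r + 1) \ A) (fun e => w e ω) s(u, v))} ≤ w₀ := by
  classical
  obtain ⟨K, φ, hKr, hK, hKu, hKv, hu, hv, -⟩ := M6_embed G u v huv d (r + 1) hd hdeg hac
  have huB : u ∈ ball G u v (r + 1) := Or.inl (by simp)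
  have hvB : v ∈ ball G u v (r + 1) := Or.inr (by simp)
  -- the embedding of the tree ball
  set f : Nd d → V := fun y =>
    if h : y ∈ K then ((φ.symm ⟨y, h⟩ : ball G u v (r + 1)) : V) else u with hf
  have hfv : ∀ (y : Nd d) (h : y ∈ K),
      f y = ((φ.symm ⟨y, h⟩ : ball G u v (r + 1)) : V) := by
    intro y h
    simp only [hf]
    rw [dif_pos h]
  have hfB : ∀ y : Nd d, y ∈ K → f y ∈ ball G u v (r + 1) := by
    intro y h
    rw [hfv y h]
    exact (φ.symm ⟨y, h⟩).2
  have hφf : ∀ (y : Nd d) (h : y ∈ K)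
      (h' : f y ∈ ball G u v (r + 1)), (φ ⟨f y, h'⟩ : Bool × List (Fin d)) = y := by
    intro y h h'
    have : (⟨f y, h'⟩ : ball G u v (r + 1)) = φ.symm ⟨y, h⟩ := Subtype.ext (hfv y h)
    rw [this]
    simp
  have hinj : Set.InjOn f K := by
    intro y hy z hz hyz
    have h1 := hφf y hy (hfB y hy)
    have h2 := hφf z hz (hfB z hz)
    rw [← h1, ← h2]
    congr 2
    exact Subtype.ext hyz
  have hadj : ∀ x y : Nd d, x ∈ K → y ∈ K → ((T d).Adj x y ↔ G.Adj (f x) (f y)) := by
    intro x y hx hy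
    rw [hfv x hx, hfv y hy]
    have := φ.symm.map_rel_iff (a := ⟨x, hx⟩) (b := ⟨y, hy⟩)
    simpa using this.symm
  have himg : f '' K = ball G u v (r + 1) := by
    ext z
    constructor
    · rintro ⟨y, hy, rfl⟩
      exact hfB y hy
    · intro hz
      refine ⟨(φ ⟨z, hz⟩ : Bool × List (Fin d)), (φ ⟨z, hz⟩).2, ?_⟩
      rw [hfv _ (φ ⟨z, hz⟩).2]
      simp
  have hbd : ∀ y : Nd d, y ∈ K →
      f y ∈ bdry G (ball G u v (r + 1)) → y.2.length = r + 1 := by
    intro y hy hb
    have h := M3k_bdry G u v d (r + 1) K hK hKr φ hu hv (f y) (hfB y hy) hb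
    rwa [hφf y hy] at h
  have hfu : f (false, []) = u := by
    rw [hfv _ hKu]
    have h := hu huB
    have : φ.symm ⟨(false, []), hKu⟩ = ⟨u, huB⟩ := by
      rw [← φ.symm_apply_apply ⟨u, huB⟩]
      congr 1
      exact Subtype.ext h.symm
    rw [this]
  have hfv' : f (true, []) = v := by
    rw [hfv _ hKv]
    have h := hv hvB
    have : φ.symm ⟨(true, []), hKv⟩ = ⟨v, hvB⟩ := by
      rw [← φ.symm_apply_apply ⟨v, hvB⟩]
      congr 1
      exact Subtype.ext h.symm
    rw [this]
  -- clipped weights, defined for all pairs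
  set ρ : ℝ → ℝ := fun t => max 0 (min M t) with hρ
  have hρm : Measurable ρ := measurable_const.max (measurable_const.min measurable_id)
  set e₀ : Sym2 V := s(u, v) with he₀
  have he₀G : e₀ ∈ G.edgeSet := huv
  set w' : Sym2 V → Ω → ℝ := fun e ω => if e ∈ G.edgeSet then ρ (w e ω) else ρ (w e₀ ω)
    with hw'
  have hm : ∀ e ∈ G.edgeSet, Measurable (fun ω => ρ (w e ω)) := fun e he => hρm.comp (hw e he)
  have hnull : ∀ e ∈ G.edgeSet, P {ω | w e ω < 0 ∨ M < w e ω} = 0 := by
    intro e he
    have h1 : P.map (w e) (Iio 0 ∪ Ioi M) = 0 := by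
      rw [hlaw e he]
      exact le_antisymm ((measure_union_le _ _).trans (by rw [hμ, hM, add_zero])) zero_le
    rwa [Measure.map_apply (hw e he) (measurableSet_Iio.union measurableSet_Ioi)] at h1
  have hlm : ∀ e ∈ G.edgeSet, P.map (fun ω => ρ (w e ω)) = μ := by
    intro e he
    rw [← hlaw e he]
    refine Measure.map_congr ?_
    have : ∀ᵐ ω ∂P, ¬ (w e ω < 0 ∨ M < w e ω) := by
      rw [ae_iff]
      simp only [not_not]
      exact hnull e he
    filter_upwards [this] with ω hω
    rw [not_or, not_lt, not_lt] at hω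
    simp only [hρ]
    rw [min_eq_right hω.2, max_eq_right hω.1]
  have hw'm : ∀ e, Measurable (w' e) := by
    intro e
    by_cases he : e ∈ G.edgeSet
    · have : w' e = fun ω => ρ (w e ω) := by
        ext ω; simp only [hw']; rw [if_pos he]
      rw [this]; exact hm e he
    · have : w' e = fun ω => ρ (w e₀ ω) := by
        ext ω; simp only [hw']; rw [if_neg he]
      rw [this]; exact hm e₀ he₀G
  have hw'l : ∀ e, P.map (w' e) = μ := by
    intro e
    by_cases he : e ∈ G.edgeSet
    · have : w' e = fun ω => ρ (w e ω) := by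
        ext ω; simp only [hw']; rw [if_pos he]
      rw [this]; exact hlm e he
    · have : w' e = fun ω => ρ (w e₀ ω) := by
        ext ω; simp only [hw']; rw [if_neg he]
      rw [this]; exact hlm e₀ he₀G
  have hw'0 : ∀ e ω, 0 ≤ w' e ω := by
    intro e ω
    simp only [hw', hρ]
    split_ifs <;> exact le_max_left _ _
  have hw'M : ∀ e ω, w' e ω ≤ M := by
    intro e ω
    simp only [hw', hρ]
    split_ifs <;> exact max_le hM0 (min_le_left _ _)
  have hw'i : iIndepFun (fun e : G.edgeSet => w' e) P := by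
    have h1 := hind.comp (fun _ => ρ) (fun _ => hρm)
    convert h1 using 1
    ext e ω
    simp only [hw', Function.comp]
    rw [if_pos e.2]
  -- the weights on the tree
  set c : Nd d → Ω → ℝ := fun y ω => cK K (fun e => w' (Sym2.map f e) ω) y with hc
  have hcK : ∀ y ∈ K, c y = w' (Sym2.map f (J_I1_indep.gg y)) := by
    intro y hy
    funext ω
    simp only [hc, cK]
    rw [if_pos hy, J_I1_indep.cw_eq f w' ω y]
  have hcn : ∀ y, y ∉ K → ∀ ω, c y ω = 0 := by
    intro y hy ω
    simp only [hc, cK]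
    rw [if_neg hy]
  have hmem := gg_memK G K hK hKu hKv f (fun x y hx hy h => (hadj x y hx hy).1 h)
  have hE : Env r K μ M P c := by
    refine ⟨?_, ?_, ?_, hcn, ?_, ?_⟩
    · intro y
      by_cases hy : y ∈ K
      · rw [hcK y hy]; exact hw'm _
      · have : c y = fun _ => 0 := funext (hcn y hy)
        rw [this]; exact measurable_const
    · intro y ω
      by_cases hy : y ∈ K
      · rw [hcK y hy]; exact hw'0 _ _
      · rw [hcn y hy]
    · intro y ω
      by_cases hy : y ∈ K
      · rw [hcK y hy]; exact hw'M _ _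
      · rw [hcn y hy]; exact hM0
    · intro y hy
      rw [hcK y hy]; exact hw'l _
    · refine indep_extend (fun i => i.1 ∈ K) _ ?_ (fun i hi ω => hcn _ hi ω)
      let g : {i : {y : Nd d // y ≠ (true, []) ∧ y.2.length ≤ r + 1} // i.1 ∈ K} → G.edgeSet :=
        fun i => ⟨Sym2.map f (J_I1_indep.gg i.1.1), hmem _ i.2⟩
      have hg : Function.Injective g := by
        intro y z h
        exact Subtype.ext (Subtype.ext (gg_injK K hK hKu hKv f hinj y.1.1 z.1.1 y.1.2.1 z.1.2.1
          y.2 z.2 (congrArg Subtype.val h)))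
      have h1 := hw'i.precomp hg
      convert h1 using 1
      funext i
      exact hcK _ i.2
  have hfin := hb r K Ω inferInstance P inferInstance c hE hKu hj
  -- the null set
  set N : Set Ω := ⋃ p : (Bool × List (Fin d)) × (Bool × List (Fin d)),
    {ω | s(f p.1, f p.2) ∈ G.edgeSet ∧ (w s(f p.1, f p.2) ω < 0 ∨ M < w s(f p.1, f p.2) ω)} with hN
  have hN0 : P N = 0 := by
    rw [hN, measure_iUnion_null_iff]
    intro p
    by_cases hp : s(f p.1, f p.2) ∈ G.edgeSet
    · simpa [hp] using hnull _ hp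
    · simp [hp]
  refine (measure_mono (?_ : _ ⊆ {ω | X (fun y => c y ω) (fun _ => 0) (2 * j) (false, []) +
          X (fun y => c y ω) (fun _ => 0) (2 * j) (true, []) ≤ c (false, []) ω ∧
        c (false, []) ω ≤ X (fun y => c y ω) (fun _ => 0) (2 * j + 1) (false, []) +
          X (fun y => c y ω) (fun _ => 0) (2 * j + 1) (true, [])} ∪ N)).trans
    ((measure_union_le _ N).trans (by rw [hN0, add_zero]; exact hfin))
  rintro ω ⟨A, hA, hne⟩
  by_cases hω : ω ∈ N
  · exact Or.inr hω
  left
  have hagree : ∀ e ∈ G.edgeSet, (∀ x ∈ e, x ∈ ball G u v (r + 1)) → w e ω = w' e ω := by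
    intro e he hx
    have hgood : ¬ (w e ω < 0 ∨ M < w e ω) := by
      intro hneg
      apply hω
      rw [hN, Set.mem_iUnion]
      induction e using Sym2.ind with
      | _ a b =>
        have ha : a ∈ f '' K := by rw [himg]; exact hx a (by simp)
        have hb : b ∈ f '' K := by rw [himg]; exact hx b (by simp)
        obtain ⟨y, -, rfl⟩ := ha
        obtain ⟨z, -, rfl⟩ := hb
        exact ⟨(y, z), he, hneg⟩
    rw [not_or, not_lt, not_lt] at hgood
    simp only [hw', hρ]
    rw [if_pos he, min_eq_right hgood.2, max_eq_right hgood.1]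
  have h1 := chi_congr G (ball G u v (r + 1)) (fun e => w e ω) (fun e => w' e ω) s(u, v) hagree
  have h2 := chi_congr G (ball G u v (r + 1) \ A) (fun e => w e ω) (fun e => w' e ω) s(u, v)
    (fun e he hx => hagree e he fun x hxe => (hx x hxe).1)
  rw [h1, h2] at hne
  have hp := pathwiseK G u v d r hd K hK hKr hKu hKv f hinj hadj himg hbd hfu hfv'
    (fun e => w' e ω) (fun e => hw'0 e ω) A hA (fun y => c y ω) rfl
    (fun n => X (fun y => c y ω) (fun _ => 0) n (false, []) +
      X (fun y => c y ω) (fun _ => 0) n (true, [])) (fun n => rfl) hne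
  have hcu : c (false, []) ω = w' s(u, v) ω := by
    rw [hcK _ hKu]
    simp only [J_I1_indep.gg, if_true, Sym2.map_mk, hfu, hfv']
  obtain ⟨-, o1, o2, -⟩ := order_all hd (fun y => c y ω)
  have o1' : ∀ m x, 2 * j ≤ m → X (fun y => c y ω) (fun _ => 0) (2 * j) x ≤
      X (fun y => c y ω) (fun _ => 0) m x := by
    intro m x hm
    obtain ⟨i, rfl⟩ := Nat.exists_eq_add_of_le hm
    exact o1 (2 * j) i x ⟨j, by ring⟩
  have o2' : ∀ m x, 2 * j + 1 ≤ m → X (fun y => c y ω) (fun _ => 0) m x ≤
      X (fun y => c y ω) (fun _ => 0) (2 * j + 1) x := by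
    intro m x hm
    obtain ⟨i, rfl⟩ := Nat.exists_eq_add_of_le hm
    exact o2 (2 * j + 1) i x ⟨j, rfl⟩
  constructor
  · rw [hcu]
    refine le_trans ?_ hp.1
    refine le_min ?_ ?_
    · exact add_le_add (o1' _ _ (by omega)) (o1' _ _ (by omega))
    · exact add_le_add (o1' _ _ (by omega)) (o1' _ _ (by omega))
  · rw [hcu]
    refine le_trans hp.2 ?_
    refine max_le ?_ ?_
    · exact add_le_add (o2' _ _ (by omega)) (o2' _ _ (by omega))
    · exact add_le_add (o2' _ _ (by omega)) (o2' _ _ (by omega))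

end Pool.Agent.K6.H21.MW
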