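import Mathlib

set_option autoImplicit false

/-! Brackets of an atomless law by points of its support. -/

namespace Pool.Agent.K6.H21.MW

open MeasureTheory Set

theorem brackets (μ : Measure ℝ) [IsProbabilityMeasure μ] (hatom : ∀ x : ℝ, μ {x} = 0) (M : ℝ)
    (h0 : μ (Iio 0) = 0) (hM : μ (Ioi M) = 0) (η₀ : ℝ) (hη : 0 < η₀) :
    ∃ (Pts : Finset ℝ) (η₁ m M₀ : ℝ) (A B : ℝ → ℝ), 0 < η₁ ∧ 0 ≤ m ∧ m < M₀ ∧ M₀ ≤ M ∧
      m ∈ Pts ∧ M₀ ∈ Pts ∧ (∀ᵐ t ∂μ, A t ≤ t ∧ t ≤ B t) ∧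
      (∀ t, A t ∈ Pts ∧ B t ∈ Pts ∧ A t + η₁ ≤ B t ∧ B t ≤ A t + η₀ ∧ m ≤ A t ∧ B t ≤ M₀) ∧
      ∀ p ∈ Pts, p ∈ μ.support := by
  classical
  set S := μ.support with hS
  have hSc : IsClosed S := Measure.isClosed_support
  have hSM : S ⊆ Icc 0 M := by
    refine Measure.support_subset_of_isClosed isClosed_Icc ?_
    rw [mem_ae_iff]
    have e : (Icc 0 M)ᶜ = Iio (0 : ℝ) ∪ Ioi M := by
      ext t
      simp only [mem_compl_iff, mem_Icc, mem_union, mem_Iio, mem_Ioi, not_and_or, not_le]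
    rw [e]
    exact le_antisymm ((measure_union_le _ _).trans (by rw [h0, hM, add_zero])) zero_le
  let J : ℕ → Set ℝ := fun i => S ∩ Icc (i * η₀) ((i + 1) * η₀)
  have hJc : ∀ i, IsCompact (J i) := fun i => isCompact_Icc.inter_left hSc
  set a : ℕ → ℝ := fun i => sInf (J i) with ha
  set b : ℕ → ℝ := fun i => sSup (J i) with hb
  have haJ : ∀ i, (J i).Nonempty → a i ∈ J i := fun i h => (hJc i).sInf_mem h
  have hbJ : ∀ i, (J i).Nonempty → b i ∈ J i := fun i h => (hJc i).sSup_mem h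
  set N : ℕ := ⌊M / η₀⌋₊ + 1 with hN
  set G : Finset ℕ := (Finset.range N).filter (fun i => (J i).Nonempty ∧ a i < b i) with hG
  have hGm : ∀ i, i ∈ G → (J i).Nonempty ∧ a i < b i := fun i hi => (Finset.mem_filter.1 hi).2
  set g : ℝ → ℕ := fun t => ⌊t / η₀⌋₊ with hg
  have hae : ∀ᵐ t ∂μ, g t ∈ G ∧ a (g t) ≤ t ∧ t ≤ b (g t) := by
    have h1 : ∀ᵐ t ∂μ, t ∈ S := Measure.support_mem_ae
    have h2 : ∀ᵐ t ∂μ, ∀ i : ℕ, t ≠ a i := by
      rw [ae_all_iff]
      intro i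
      rw [ae_iff]
      simpa using hatom (a i)
    filter_upwards [h1, h2] with t t1 t2
    have t3 := hSM t1
    have t4 : 0 ≤ t / η₀ := div_nonneg t3.1 hη.le
    have t5 : (g t : ℝ) * η₀ ≤ t := by
      have := Nat.floor_le t4
      rwa [le_div_iff₀ hη] at this
    have t6 : t ≤ ((g t : ℝ) + 1) * η₀ := by
      have := (Nat.lt_floor_add_one (t / η₀)).le
      rwa [div_le_iff₀ hη] at this
    have t7 : t ∈ J (g t) := ⟨t1, t5, t6⟩
    have t8 : a (g t) ≤ t := csInf_le (hJc _).bddBelow t7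
    have t9 : t ≤ b (g t) := le_csSup (hJc _).bddAbove t7
    refine ⟨Finset.mem_filter.2 ⟨?_, ⟨t, t7⟩, ?_⟩, t8, t9⟩
    · rw [Finset.mem_range, hN, Nat.lt_succ_iff]
      exact Nat.floor_le_floor (div_le_div_of_nonneg_right t3.2 hη.le)
    · exact lt_of_lt_of_le (lt_of_le_of_ne t8 (t2 _).symm) t9
  obtain ⟨t₀, ht₀⟩ := hae.exists
  set i₀ := g t₀ with hi₀
  have hne : G.Nonempty := ⟨i₀, ht₀.1⟩
  set g' : ℝ → ℕ := fun t => if g t ∈ G then g t else i₀ with hg'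
  have hg'G : ∀ t, g' t ∈ G := by
    intro t
    simp only [hg']
    split_ifs with h
    · exact h
    · exact ht₀.1
  have hGS : ∀ i ∈ G, a i ∈ J i ∧ b i ∈ J i := fun i hi => ⟨haJ i (hGm i hi).1, hbJ i (hGm i hi).1⟩
  refine ⟨G.image a ∪ G.image b, G.inf' hne (fun i => b i - a i), G.inf' hne a, G.sup' hne b,
    fun t => a (g' t), fun t => b (g' t), ?_, ?_, ?_, ?_, ?_, ?_, ?_, ?_, ?_⟩
  · rw [Finset.lt_inf'_iff]
    intro i hi
    linarith [(hGm i hi).2]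
  · rw [Finset.le_inf'_iff]
    intro i hi
    exact (hSM (hGS i hi).1.1).1
  · have u1 : G.inf' hne a ≤ a i₀ := Finset.inf'_le _ ht₀.1
    have u2 : b i₀ ≤ G.sup' hne b := Finset.le_sup' _ ht₀.1
    linarith [(hGm i₀ ht₀.1).2]
  · rw [Finset.sup'_le_iff]
    intro i hi
    exact (hSM (hGS i hi).2.1).2
  · obtain ⟨i, hi, e⟩ := Finset.exists_mem_eq_inf' hne a
    rw [e]
    exact Finset.mem_union_left _ (Finset.mem_image_of_mem _ hi)
  · obtain ⟨i, hi, e⟩ := Finset.exists_mem_eq_sup' hne b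
    rw [e]
    exact Finset.mem_union_right _ (Finset.mem_image_of_mem _ hi)
  · filter_upwards [hae] with t ht
    have : g' t = g t := by simp only [hg']; rw [if_pos ht.1]
    rw [this]
    exact ht.2
  · intro t
    have h := hg'G t
    have h2 := hGS _ h
    refine ⟨Finset.mem_union_left _ (Finset.mem_image_of_mem _ h),
      Finset.mem_union_right _ (Finset.mem_image_of_mem _ h), ?_, ?_, Finset.inf'_le _ h,
      Finset.le_sup' _ h⟩
    · have := Finset.inf'_le (fun i => b i - a i) h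
      linarith
    · have u1 := h2.1.2.1
      have u2 := h2.2.2.2
      linarith
  · intro p hp
    rcases Finset.mem_union.1 hp with h | h
    · obtain ⟨i, hi, rfl⟩ := Finset.mem_image.1 h
      exact (hGS i hi).1.1
    · obtain ⟨i, hi, rfl⟩ := Finset.mem_image.1 h
      exact (hGS i hi).2.1

end Pool.Agent.K6.H21.MW
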