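import Pool.Agent.Helper31_MW.Fin1

set_option autoImplicit false

/-! Deterministic part: Lipschitz bounds, monotonicity by parity, blocking patterns. -/

namespace Pool.Agent.K6.H21.MW

open Set Pool.Agent.Helper31_MW

abbrev Nd (d : ℕ) : Type := Bool × List (Fin d)

variable {d : ℕ}

theorem X_succ (c b : Nd d → ℝ) (n : ℕ) (x : Nd d) :
    X c b (n + 1) x = ⨆ i : Fin d, max 0 (c (child x i) - X c b n (child x i)) := rfl

theorem X_nonneg' (c b : Nd d → ℝ) (n : ℕ) (x : Nd d) : 0 ≤ X c b (n + 1) x := by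
  rw [X_succ]
  exact Real.iSup_nonneg fun i => le_max_left _ _

theorem le_X' (c b : Nd d → ℝ) (n : ℕ) (x : Nd d) (i : Fin d) :
    c (child x i) - X c b n (child x i) ≤ X c b (n + 1) x := by
  rw [X_succ]
  exact (le_max_right _ _).trans
    (le_ciSup (f := fun i : Fin d => max 0 (c (child x i) - X c b n (child x i)))
      (Set.finite_range _).bddAbove i)

theorem X_le (hd : 1 ≤ d) (c b : Nd d → ℝ) (n : ℕ) (x : Nd d) (t : ℝ) (ht : 0 ≤ t)
    (h : ∀ i, c (child x i) - X c b n (child x i) ≤ t) : X c b (n + 1) x ≤ t := by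
  have : Nonempty (Fin d) := ⟨⟨0, hd⟩⟩
  rw [X_succ]
  exact ciSup_le fun i => max_le ht (h i)

theorem exists_arg (hd : 1 ≤ d) (c b : Nd d → ℝ) (n : ℕ) (x : Nd d) (h : 0 < X c b (n + 1) x) :
    ∃ i, X c b (n + 1) x = c (child x i) - X c b n (child x i) := by
  have : Nonempty (Fin d) := ⟨⟨0, hd⟩⟩
  obtain ⟨i, hi⟩ := exists_eq_ciSup_of_finite
    (f := fun i : Fin d => max 0 (c (child x i) - X c b n (child x i)))
  rw [← X_succ] at hi
  refine ⟨i, ?_⟩
  rw [← hi] at h ⊢
  rcases le_total 0 (c (child x i) - X c b n (child x i)) with h1 | h1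
  · exact max_eq_right h1
  · rw [max_eq_left h1] at h
    exact absurd h (lt_irrefl _)

@[simp] theorem len_child (x : Nd d) (i : Fin d) : (child x i).2.length = x.2.length + 1 := by
  simp [child]

/-- Lipschitz bound. -/
theorem lip (hd : 1 ≤ d) (c c' b b' : Nd d → ℝ) (δ : ℕ → ℝ) (β : ℝ)
    (h : ∀ y, |c y - c' y| ≤ δ y.2.length) (hb : ∀ y, |b y - b' y| ≤ β) :
    ∀ (n : ℕ) (x : Nd d),
      |X c b n x - X c' b' n x| ≤ (∑ k ∈ Finset.range n, δ (x.2.length + k + 1)) + β := by
  have hβ : 0 ≤ β := (abs_nonneg _).trans (hb (true, []))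
  have : Nonempty (Fin d) := ⟨⟨0, hd⟩⟩
  have hδ : ∀ l : ℕ, 0 ≤ δ l := fun l => by
    have := (abs_nonneg _).trans (h (true, List.replicate l ⟨0, hd⟩))
    simpa using this
  intro n
  induction n with
  | zero => intro x; simpa [X] using hb x
  | succ n ih =>
    intro x
    set D := (∑ k ∈ Finset.range (n + 1), δ (x.2.length + k + 1)) + β with hD
    have hD0 : 0 ≤ D := add_nonneg (Finset.sum_nonneg fun k _ => hδ _) hβ
    have hDs : D = δ (x.2.length + 1) + ((∑ k ∈ Finset.range n, δ (x.2.length + 1 + k + 1)) + β) := by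
      rw [hD, Finset.sum_range_succ', add_zero]
      have : ∀ k, x.2.length + (k + 1) + 1 = x.2.length + 1 + k + 1 := fun k => by ring
      simp only [this]
      ring
    have key : ∀ i, |(c (child x i) - X c b n (child x i)) -
        (c' (child x i) - X c' b' n (child x i))| ≤ D := by
      intro i
      have h1 := h (child x i)
      have h2 := ih (child x i)
      rw [len_child] at h1 h2
      rw [abs_le] at h1 h2 ⊢
      rw [hDs]
      constructor <;> linarith [h1.1, h1.2, h2.1, h2.2]
    rw [abs_le]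
    constructor
    · have : X c' b' (n + 1) x ≤ X c b (n + 1) x + D := by
        refine X_le hd _ _ _ _ _ (add_nonneg (X_nonneg' _ _ _ _) hD0) fun i => ?_
        have := (abs_le.1 (key i)).1
        linarith [le_X' c b n x i]
      linarith
    · have : X c b (n + 1) x ≤ X c' b' (n + 1) x + D := by
        refine X_le hd _ _ _ _ _ (add_nonneg (X_nonneg' _ _ _ _) hD0) fun i => ?_
        have := (abs_le.1 (key i)).2
        linarith [le_X' c' b' n x i]
      linarith

/-- `c` is below `c'` in the order of parity `p`, on the levels beyond `L`. -/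
def Up (L p : ℕ) (c c' : Nd d → ℝ) : Prop :=
  ∀ y : Nd d, L < y.2.length → (Odd (y.2.length + p) → c y ≤ c' y) ∧
    (Even (y.2.length + p) → c' y ≤ c y)

theorem mono (hd : 1 ≤ d) (L p : ℕ) (c c' b b' : Nd d → ℝ) (hc : Up L p c c')
    (hb : ∀ y : Nd d, (Even (y.2.length + p) → b y ≤ b' y) ∧
      (Odd (y.2.length + p) → b' y ≤ b y)) :
    ∀ (n : ℕ) (x : Nd d), L ≤ x.2.length → (Even (x.2.length + p) → X c b n x ≤ X c' b' n x) ∧
      (Odd (x.2.length + p) → X c' b' n x ≤ X c b n x) := by
  intro n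
  induction n with
  | zero =>
    intro x _
    exact ⟨fun h => (hb x).1 h, fun h => (hb x).2 h⟩
  | succ n ih =>
    intro x hx
    constructor
    · intro h
      refine X_le hd _ _ _ _ _ (X_nonneg' _ _ _ _) fun i => ?_
      have ho : Odd ((child x i).2.length + p) := by
        rw [len_child, show x.2.length + 1 + p = x.2.length + p + 1 by ring]
        exact h.add_one
      have h1 := (hc (child x i) (by rw [len_child]; omega)).1 ho
      have h2 := (ih (child x i) (by rw [len_child]; omega)).2 ho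
      linarith [le_X' c' b' n x i]
    · intro h
      refine X_le hd _ _ _ _ _ (X_nonneg' _ _ _ _) fun i => ?_
      have ho : Even ((child x i).2.length + p) := by
        rw [len_child, show x.2.length + 1 + p = x.2.length + p + 1 by ring]
        exact h.add_one
      have h1 := (hc (child x i) (by rw [len_child]; omega)).2 ho
      have h2 := (ih (child x i) (by rw [len_child]; omega)).1 ho
      linarith [le_X' c b n x i]

theorem par_child_odd {p : ℕ} {x : Nd d} (i : Fin d) (h : Even (x.2.length + p)) :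
    Odd ((child x i).2.length + p) := by
  rw [len_child, show x.2.length + 1 + p = x.2.length + p + 1 by ring]
  exact h.add_one

theorem par_child_even {p : ℕ} {x : Nd d} (i : Fin d) (h : Odd (x.2.length + p)) :
    Even ((child x i).2.length + p) := by
  rw [len_child, show x.2.length + 1 + p = x.2.length + p + 1 by ring]
  exact h.add_one

/-- Blocking: under the low pattern the message does not depend on the boundary values. -/
theorem low_block (hd : 1 ≤ d) (K : Set (Nd d)) (p L₀ : ℕ) (q : Nd d → ℝ) (m M B : ℝ)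
    (hmM : m ≤ M) (hMB : M ≤ B)
    (hq0 : ∀ y, y ∉ K → q y = 0)
    (hq1 : ∀ y ∈ K, L₀ < y.2.length → Odd (y.2.length + p) → q y = m)
    (hq2 : ∀ y ∈ K, L₀ < y.2.length → Even (y.2.length + p) → q y = M)
    (β β' : Nd d → ℝ) (hβ0 : ∀ y, 0 ≤ β y) (hβ : ∀ y, β y ≤ B) (hβ'0 : ∀ y, 0 ≤ β' y)
    (hβ' : ∀ y, β' y ≤ B) :
    ∀ (n : ℕ) (x : Nd d), L₀ ≤ x.2.length → Even (x.2.length + p) → X q β' n x < X q β n x →
      ((n / 2 : ℕ) : ℝ) * (M - m) + X q β n x ≤ B := by
  intro n
  induction n using Nat.strong_induction_on with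
  | _ n ih =>
    intro x hx hpx hlt
    match n, ih, hlt with
    | 0, _, hlt => simpa [X] using hβ x
    | 1, _, hlt =>
      have hpos : 0 < X q β 1 x := lt_of_le_of_lt (X_nonneg' q β' 0 x) hlt
      obtain ⟨i, hi⟩ := exists_arg hd q β 0 x hpos
      have hK : child x i ∈ K := by
        by_contra hn
        rw [hi, hq0 _ hn] at hpos
        have := hβ0 (child x i)
        simp only [X] at hpos
        linarith
      have h1 := hq1 _ hK (by rw [len_child]; omega) (par_child_odd i hpx)
      rw [hi, h1]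
      simp only [X]
      have := hβ0 (child x i)
      norm_num
      linarith
    | n + 2, ih, hlt =>
      have hpos : 0 < X q β (n + 2) x := lt_of_le_of_lt (X_nonneg' q β' (n + 1) x) hlt
      obtain ⟨i, hi⟩ := exists_arg hd q β (n + 1) x hpos
      have hj0 : 0 ≤ X q β (n + 1) (child x i) := X_nonneg' _ _ _ _
      have hK : child x i ∈ K := by
        by_contra hn
        rw [hi, hq0 _ hn] at hpos
        linarith
      have h1 := hq1 _ hK (by rw [len_child]; omega) (par_child_odd i hpx)
      have h2 : X q β (n + 1) (child x i) < X q β' (n + 1) (child x i) := by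
        have := le_X' q β' (n + 1) x i
        rw [hi] at hlt
        linarith
      have hpos2 : 0 < X q β' (n + 1) (child x i) := lt_of_le_of_lt hj0 h2
      obtain ⟨j, hj⟩ := exists_arg hd q β' n (child x i) hpos2
      have hg : ∀ b : Nd d → ℝ, (∀ y, 0 ≤ b y) → ∀ (k : ℕ) (y : Nd d), 0 ≤ X q b k y := by
        intro b hb k y
        cases k with
        | zero => exact hb y
        | succ k => exact X_nonneg' _ _ _ _
      have hK2 : child (child x i) j ∈ K := by
        by_contra hn
        rw [hj, hq0 _ hn] at hpos2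
        have := hg β' hβ'0 n (child (child x i) j)
        linarith
      have h3 := hq2 _ hK2 (by rw [len_child, len_child]; omega)
        (par_child_even j (par_child_odd i hpx))
      have h4 := le_X' q β n (child x i) j
      have h5 : X q β' n (child (child x i) j) < X q β n (child (child x i) j) := by
        rw [hj] at h2
        linarith
      have h6 := ih n (by omega) (child (child x i) j) (by rw [len_child, len_child]; omega) (by
        have := par_child_even j (par_child_odd i hpx)
        exact this) h5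
      have e : ((n + 2) / 2 : ℕ) = n / 2 + 1 := by omega
      rw [e]
      push_cast
      rw [hi, h1]
      rw [h3] at h4
      linarith

theorem low_block' (hd : 1 ≤ d) (K : Set (Nd d)) (p L₀ : ℕ) (q : Nd d → ℝ) (m M B : ℝ)
    (hmM : m ≤ M) (hMB : M ≤ B)
    (hq0 : ∀ y, y ∉ K → q y = 0)
    (hq1 : ∀ y ∈ K, L₀ < y.2.length → Odd (y.2.length + p) → q y = m)
    (hq2 : ∀ y ∈ K, L₀ < y.2.length → Even (y.2.length + p) → q y = M)
    (β β' : Nd d → ℝ) (hβ0 : ∀ y, 0 ≤ β y) (hβ : ∀ y, β y ≤ B) (hβ'0 : ∀ y, 0 ≤ β' y)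
    (hβ' : ∀ y, β' y ≤ B) (n : ℕ) (hn : B < ((n / 2 : ℕ) : ℝ) * (M - m))
    (x : Nd d) (hx : L₀ ≤ x.2.length) (hp : Even (x.2.length + p)) :
    X q β n x = X q β' n x := by
  have hg : ∀ b : Nd d → ℝ, (∀ y, 0 ≤ b y) → ∀ (k : ℕ) (y : Nd d), 0 ≤ X q b k y := by
    intro b hb k y
    cases k with
    | zero => exact hb y
    | succ k => exact X_nonneg' _ _ _ _
  refine le_antisymm ?_ ?_
  · by_contra h
    push Not at h
    have := low_block hd K p L₀ q m M B hmM hMB hq0 hq1 hq2 β β' hβ0 hβ hβ'0 hβ' n x hx hp h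
    have := hg β hβ0 n x
    linarith
  · by_contra h
    push Not at h
    have := low_block hd K p L₀ q m M B hmM hMB hq0 hq1 hq2 β' β hβ'0 hβ' hβ0 hβ n x hx hp h
    have := hg β' hβ'0 n x
    linarith

/-- Under the high pattern. -/
theorem high_block (hd : 1 ≤ d) (K : Set (Nd d)) (p L₀ : ℕ) (q : Nd d → ℝ) (m M B : ℝ)
    (hmM : m ≤ M) (hMB : M ≤ B)
    (hq0 : ∀ y, y ∉ K → q y = 0)
    (hq1 : ∀ y ∈ K, L₀ < y.2.length → Odd (y.2.length + p) → q y = M)
    (hq2 : ∀ y ∈ K, L₀ < y.2.length → Even (y.2.length + p) → q y = m)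
    (β β' : Nd d → ℝ) (hβ0 : ∀ y, 0 ≤ β y) (hβ : ∀ y, β y ≤ B) (hβ'0 : ∀ y, 0 ≤ β' y)
    (hβ' : ∀ y, β' y ≤ B) (n : ℕ) (hn : B < ((n / 2 : ℕ) : ℝ) * (M - m))
    (x : Nd d) (hx : L₀ ≤ x.2.length) (hp : Even (x.2.length + p)) :
    X q β (n + 1) x = X q β' (n + 1) x := by
  rw [X_succ, X_succ]
  congr 1
  ext i
  have h := low_block' hd K (p + 1) L₀ q m M B hmM hMB hq0
    (fun y hy hl ho => hq2 y hy hl (by
      have := ho.add_one
      have h2 : y.2.length + (p + 1) + 1 = y.2.length + p + 2 := by ring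
      rw [h2] at this
      rcases this with ⟨k, hk⟩
      exact ⟨k - 1, by omega⟩))
    (fun y hy hl he => hq1 y hy hl (by
      rcases he with ⟨k, hk⟩
      exact ⟨k - 1, by omega⟩))
    β β' hβ0 hβ hβ'0 hβ' n hn (child x i) (by rw [len_child]; omega) (by
      rw [len_child]
      rcases hp with ⟨k, hk⟩
      exact ⟨k + 1, by omega⟩)
  rw [h]

/-- Comparison of the two extreme local patterns. -/
theorem ecomp (hd : 1 ≤ d) (K : Set (Nd d)) (p L₀ L₁ : ℕ) (f g β β' : Nd d → ℝ) (η B : ℝ)
    (hη : 0 ≤ η) (hf0 : ∀ y, y ∉ K → f y = 0) (hg0 : ∀ y, y ∉ K → g y = 0)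
    (h1 : ∀ y ∈ K, L₀ < y.2.length → y.2.length ≤ L₁ → Odd (y.2.length + p) → f y + η ≤ g y)
    (h2 : ∀ y ∈ K, L₀ < y.2.length → y.2.length ≤ L₁ → Even (y.2.length + p) → g y + η ≤ f y)
    (hβ : ∀ y, β y ≤ B) (hβ0 : ∀ y, 0 ≤ β y) (hβ' : ∀ y, 0 ≤ β' y) :
    ∀ (k : ℕ) (x : Nd d), L₀ ≤ x.2.length → x.2.length + 2 * k ≤ L₁ → Even (x.2.length + p) →
      X f β (2 * k) x ≤ X g β' (2 * k) x + max 0 (B - 2 * k * η) := by
  have hgn : ∀ (c b : Nd d → ℝ), (∀ y, 0 ≤ b y) → ∀ (k : ℕ) (y : Nd d), 0 ≤ X c b k y := by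
    intro c b hb k y
    cases k with
    | zero => exact hb y
    | succ k => exact X_nonneg' _ _ _ _
  intro k
  induction k with
  | zero =>
    intro x _ _ _
    simp only [X, Nat.cast_zero, mul_zero, zero_mul, sub_zero]
    have := hβ x
    have h3 := hβ' x
    have := le_max_right 0 B
    linarith
  | succ k ih =>
    intro x hx hL hp
    set E := max 0 (B - 2 * k * η) with hE
    set E' := max 0 (B - 2 * ((k + 1 : ℕ) : ℝ) * η) with hE'
    have hEE : max 0 (E - 2 * η) ≤ E' := by
      refine max_le (le_max_left _ _) ?_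
      rcases max_cases 0 (B - 2 * k * η) with ⟨h, _⟩ | ⟨h, _⟩
      · rw [hE, h]
        have := le_max_left 0 (B - 2 * ((k + 1 : ℕ) : ℝ) * η)
        rw [← hE'] at this
        linarith
      · rw [hE, h, hE']
        refine le_trans (le_of_eq ?_) (le_max_right _ _)
        push_cast
        ring
    have hE'0 : 0 ≤ E' := le_max_left _ _
    have e2 : 2 * (k + 1) = 2 * k + 1 + 1 := by ring
    rw [e2]
    refine X_le hd _ _ _ _ _ (add_nonneg (X_nonneg' _ _ _ _) hE'0) fun i => ?_
    by_cases hK : child x i ∈ K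
    · have a1 := h1 _ hK (by rw [len_child]; omega) (by rw [len_child]; omega)
        (par_child_odd i hp)
      have a2 := le_X' g β' (2 * k + 1) x i
      -- the next level
      have a3 : X g β' (2 * k + 1) (child x i) ≤
          X f β (2 * k + 1) (child x i) + max 0 (E - η) := by
        refine X_le hd _ _ _ _ _ (add_nonneg (X_nonneg' _ _ _ _) (le_max_left _ _)) fun j => ?_
        by_cases hK2 : child (child x i) j ∈ K
        · have b1 := h2 _ hK2 (by rw [len_child, len_child]; omega)
            (by rw [len_child, len_child]; omega) (par_child_even j (par_child_odd i hp))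
          have b2 := le_X' f β (2 * k) (child x i) j
          have b3 := ih (child (child x i) j) (by rw [len_child, len_child]; omega)
            (by rw [len_child, len_child]; omega) (par_child_even j (par_child_odd i hp))
          have b4 := le_max_right 0 (E - η)
          linarith
        · rw [hg0 _ hK2]
          have := hgn g β' hβ' (2 * k) (child (child x i) j)
          have := X_nonneg' f β (2 * k) (child x i)
          have := le_max_left 0 (E - η)
          linarith
      have a4 : -η + max 0 (E - η) ≤ E' := by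
        refine le_trans ?_ hEE
        rcases max_cases 0 (E - η) with ⟨h, _⟩ | ⟨h, _⟩
        · rw [h]
          have := le_max_left 0 (E - 2 * η)
          linarith
        · rw [h]
          have := le_max_right 0 (E - 2 * η)
          linarith
      linarith
    · rw [hf0 _ hK]
      have := X_nonneg' f β (2 * k) (child x i)
      have := X_nonneg' g β' (2 * k + 1) x
      linarith

theorem ivt (g : ℕ → ℝ) (A η : ℝ) (N : ℕ) (h0 : g 0 < A) (hN : A ≤ g N)
    (hs : ∀ k < N, |g k - g (k + 1)| ≤ η) : ∃ k ≤ N, A ≤ g k ∧ g k ≤ A + η := by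
  classical
  have hex : ∃ k, A ≤ g k := ⟨N, hN⟩
  set k := Nat.find hex with hk
  have hk1 : A ≤ g k := Nat.find_spec hex
  have hkN : k ≤ N := Nat.find_min' hex hN
  have hk0 : k ≠ 0 := by
    intro h
    rw [h] at hk1
    linarith
  obtain ⟨j, hj⟩ := Nat.exists_eq_succ_of_ne_zero hk0
  have hj1 : g j < A := by
    have := Nat.find_min hex (m := j) (by omega)
    push Not at this
    exact this
  have h3 := hs j (by omega)
  rw [abs_le] at h3
  refine ⟨k, hkN, hk1, ?_⟩
  rw [hj]
  simp only [Nat.succ_eq_add_one]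
  linarith [h3.1]

end Pool.Agent.K6.H21.MW
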