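import Pool.Agent.K6.H21.MW.Law
import Pool.Agent.K6.H21.MW.Brk

set_option autoImplicit false

/-! The improvement of the domination. -/

namespace Pool.Agent.K6.H21.MW

open Set MeasureTheory ProbabilityTheory Filter Topology Pool.Agent.Helper31_MW

variable {d : ℕ}

theorem modulus (μ : Measure ℝ) [IsProbabilityMeasure μ] (hatom : ∀ x : ℝ, μ {x} = 0) (M : ℝ)
    (h0 : μ (Iio 0) = 0) (hM : μ (Ioi M) = 0) (w : ENNReal) (hw : 0 < w) :
    ∃ h : ℝ, 0 < h ∧ ∀ t, μ (Icc t (t + h)) ≤ w := by
  have h1 : ∀ t : ℝ, ∃ U : Set ℝ, {t} ⊆ U ∧ IsOpen U ∧ μ U < w := fun t =>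
    Set.exists_isOpen_lt_of_lt {t} w (by rw [hatom t]; exact hw)
  choose U hU1 hU2 hU3 using h1
  obtain ⟨δ, hδ, h2⟩ := lebesgue_number_lemma_of_metric (s := Icc (-1 : ℝ) M) (c := U) isCompact_Icc
    hU2 (fun t _ => Set.mem_iUnion.2 ⟨t, hU1 t rfl⟩)
  refine ⟨min 1 (δ / 2), lt_min one_pos (by linarith), fun t => ?_⟩
  have m1 := min_le_left 1 (δ / 2)
  have m2 := min_le_right 1 (δ / 2)
  by_cases ht : t ∈ Icc (-1 : ℝ) M
  · obtain ⟨i, hi⟩ := h2 t ht
    refine (measure_mono (Set.Subset.trans ?_ hi)).trans (hU3 i).le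
    intro u hu
    rw [Metric.mem_ball, Real.dist_eq, abs_lt]
    constructor <;> linarith [hu.1, hu.2]
  · rw [Set.mem_Icc, not_and_or, not_le, not_le] at ht
    rcases ht with ht | ht
    · refine (measure_mono (t := Iio 0) ?_).trans (by rw [h0]; exact zero_le)
      intro u hu
      rw [Set.mem_Iio]
      linarith [hu.2]
    · refine (measure_mono (t := Ioi M) ?_).trans (by rw [hM]; exact zero_le)
      intro u hu
      rw [Set.mem_Ioi]
      linarith [hu.1]

variable {R : ℕ} {K : Set (Nd d)} {μ : Measure ℝ} {M : ℝ} {Ω : Type} [MeasurableSpace Ω]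
  {P : Measure Ω} [IsProbabilityMeasure P] {c : Nd d → Ω → ℝ}

/-- The number of lists of length at most `n`. -/
noncomputable def Nn (d n : ℕ) : ℕ := (List.finite_length_le (Fin d) n).toFinset.card

theorem Env.cyl (E : Env R K μ M P c) (n : ℕ) (x : Nd d) (hx : x.2.length + n ≤ R + 1)
    (q : Nd d → ℝ) (ε₁ : ℝ) (κ : ENNReal) (hκ1 : κ ≤ 1)
    (hq : ∀ y ∈ K, κ ≤ μ (Icc (q y - ε₁) (q y + ε₁))) :
    κ ^ (Nn d n) ≤ P {ω | ∀ y ∈ desc n x, y ∈ K → |c y ω - q y| ≤ ε₁} := by
  classical
  set Λ : Finset (List (Fin d)) := (List.finite_length_le (Fin d) n).toFinset.filter (· ≠ []) with hΛ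
  have hm : ∀ l ∈ Λ, l.length ≤ n ∧ l ≠ [] := by
    intro l hl
    rw [hΛ, Finset.mem_filter, Set.Finite.mem_toFinset] at hl
    exact hl
  let g : {l // l ∈ Λ} → {y : Nd d // y ≠ (true, []) ∧ y.2.length ≤ R + 1} := fun l =>
    ⟨(x.1, l.1 ++ x.2), by
      have h1 := hm l.1 l.2
      have h2 : 0 < l.1.length := List.length_pos_iff.2 h1.2
      refine ⟨ne_of_len (by simp only [List.length_append]; omega), ?_⟩
      simp only [List.length_append]
      omega⟩
  have hg : Function.Injective g := by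
    intro l l' h
    have h1 := congrArg (fun z => (Subtype.val z).2) h
    exact Subtype.ext (List.append_cancel_right h1)
  have hF := E.hi.precomp hg
  let sets : {l // l ∈ Λ} → Set ℝ := fun l =>
    if (g l).1 ∈ K then Icc (q (g l).1 - ε₁) (q (g l).1 + ε₁) else univ
  have hs : ∀ l, MeasurableSet (sets l) := by
    intro l
    simp only [sets]
    split_ifs
    · exact measurableSet_Icc
    · exact MeasurableSet.univ
  have h1 := hF.measure_inter_preimage_eq_mul Finset.univ (sets := sets) (fun l _ => hs l)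
  have h2 : ∀ l, κ ≤ P ((fun ω => c (g l).1 ω) ⁻¹' sets l) := by
    intro l
    simp only [sets]
    split_ifs with h
    · have := hq _ h
      rw [← E.hl _ h, Measure.map_apply (E.me _) measurableSet_Icc] at this
      exact this
    · rw [Set.preimage_univ, measure_univ]
      exact hκ1
  calc κ ^ (Nn d n) ≤ κ ^ (Finset.univ : Finset {l // l ∈ Λ}).card := by
        refine pow_le_pow_right_of_le_one' hκ1 ?_
        rw [Finset.card_univ, Fintype.card_coe]
        exact Finset.card_le_card (Finset.filter_subset _ _)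
    _ = ∏ l : {l // l ∈ Λ}, κ := by rw [Finset.prod_const]
    _ ≤ ∏ l : {l // l ∈ Λ}, P ((fun ω => c (g l).1 ω) ⁻¹' sets l) :=
        Finset.prod_le_prod' fun l _ => h2 l
    _ = P (⋂ l ∈ (Finset.univ : Finset {l // l ∈ Λ}), (fun ω => c (g l).1 ω) ⁻¹' sets l) := h1.symm
    _ ≤ _ := by
        refine measure_mono fun ω hω => ?_
        rintro y ⟨l, hl, hln, rfl⟩ hy
        have hlΛ : l ∈ Λ := by
          rw [hΛ, Finset.mem_filter, Set.Finite.mem_toFinset]
          exact ⟨hln, hl⟩
        have h3 := Set.mem_iInter₂.1 hω ⟨l, hlΛ⟩ (Finset.mem_univ _)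
        have h4 : (g ⟨l, hlΛ⟩).1 ∈ K := hy
        simp only [sets, Set.mem_preimage] at h3
        rw [if_pos h4] at h3
        rw [abs_le]
        constructor
        · linarith [h3.1]
        · linarith [h3.2]

/-- The domination of the upper by the lower messages, up to the shift `s`. -/
def Dom (R : ℕ) (P : Measure Ω) (c : Nd d → Ω → ℝ) (j : ℕ) (s : ℝ) : Prop :=
  ∀ x : Nd d, x.2.length + (2 * j + 2) ≤ R + 1 → ∀ z : ℝ,
    P {ω | z + s < X (fun y => c y ω) (fun _ => 0) (2 * j + 1) x} ≤
      P {ω | z < X (fun y => c y ω) (fun _ => 0) (2 * j) x}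

theorem slab (hd : 1 ≤ d) (E : Env R K μ M P c) {k : ℕ} {G : (Nd d → ℝ) → Nd d → ℝ}
    (hG : Loc k G) (hG0 : ∀ c x, 0 ≤ G c x) (n : ℕ) (x : Nd d)
    (hx : x.2.length + 1 + (k + n) ≤ R + 1) (z h : ℝ) (hz : 0 ≤ z) (w : ENNReal)
    (hw : ∀ t, μ (Icc t (t + h)) ≤ w) :
    P {ω | z < X (fun y => c y ω) (G (fun y => c y ω)) (n + 1) x ∧
      X (fun y => c y ω) (G (fun y => c y ω)) (n + 1) x ≤ z + h} ≤ d * w := by
  classical
  have hY := hG.step n
  have hY0 : ∀ (c : Nd d → ℝ) (y : Nd d), 0 ≤ X c (G c) n y := by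
    intro c y
    cases n with
    | zero => exact hG0 c y
    | succ n => exact X_nonneg' _ _ _ _
  calc _ ≤ P (⋃ i ∈ (Finset.univ : Finset (Fin d)), {ω | z < c (child x i) ω - X (fun y => c y ω) (G (fun y => c y ω)) n (child x i) ∧
        c (child x i) ω - X (fun y => c y ω) (G (fun y => c y ω)) n (child x i) ≤ z + h}) := by
        refine measure_mono ?_
        rintro ω ⟨h1, h2⟩
        obtain ⟨i, hi⟩ := exists_arg hd _ _ n x (lt_of_le_of_lt hz h1)
        rw [hi] at h1 h2
        exact Set.mem_iUnion₂.2 ⟨i, Finset.mem_univ _, h1, h2⟩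
    _ ≤ ∑ i : Fin d, P {ω | z < c (child x i) ω - X (fun y => c y ω) (G (fun y => c y ω)) n (child x i) ∧
        c (child x i) ω - X (fun y => c y ω) (G (fun y => c y ω)) n (child x i) ≤ z + h} :=
        measure_biUnion_finset_le _ _
    _ ≤ ∑ _i : Fin d, w := by
        refine Finset.sum_le_sum fun i _ => ?_
        by_cases hK : child x i ∈ K
        · have hl : 0 < (child x i).2.length := by rw [len_child]; omega
          have hl' : (child x i).2.length + (k + n) ≤ R + 1 := by rw [len_child]; omega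
          refine (measure_mono ?_).trans (ioc_le _ _ (E.me _) (E.locm hY _) (E.ind hY _ hl hl') h w
            (by rw [E.hl _ hK]; exact hw) z)
          rintro ω ⟨h1, h2⟩
          exact ⟨h1.le, h2⟩
        · have : {ω | z < c (child x i) ω - X (fun y => c y ω) (G (fun y => c y ω)) n (child x i) ∧
              c (child x i) ω - X (fun y => c y ω) (G (fun y => c y ω)) n (child x i) ≤ z + h} = ∅ := by
            ext ω
            simp only [Set.mem_ofPred_eq, Set.mem_empty_iff_false, iff_false, not_and]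
            intro h1
            rw [E.hK _ hK] at h1
            have := hY0 (fun y => c y ω) (child x i)
            linarith
          rw [this, measure_empty]
          exact zero_le
    _ = d * w := by simp

end Pool.Agent.K6.H21.MW
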