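import Pool.Agent.K6.H21.MW.Imp

set_option autoImplicit false

/-! The improvement of the domination, core step. -/

namespace Pool.Agent.K6.H21.MW

open Set MeasureTheory ProbabilityTheory Filter Topology Pool.Agent.Helper31_MW

variable {d : ℕ} {R : ℕ} {K : Set (Nd d)} {μ : Measure ℝ} {M : ℝ} {Ω : Type} [MeasurableSpace Ω]
  {P : Measure Ω} [IsProbabilityMeasure P] {c : Nd d → Ω → ℝ}

theorem improve_core (hd : 1 ≤ d) (E : Env R K μ M P c) (Pts : Finset ℝ) (s₁ η₁ m M₀ : ℝ)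
    (A B : ℝ → ℝ) (hs₁ : 0 < s₁) (hη₁ : 0 < η₁) (hm0 : 0 ≤ m) (hmM : m < M₀) (hMM : M₀ ≤ M)
    (hmP : m ∈ Pts) (hMP : M₀ ∈ Pts) (hae : ∀ᵐ t ∂μ, A t ≤ t ∧ t ≤ B t)
    (hAB : ∀ t, A t ∈ Pts ∧ B t ∈ Pts ∧ A t + η₁ ≤ B t ∧ B t ≤ A t + s₁ / 4 ∧ m ≤ A t ∧ B t ≤ M₀)
    (k₁ k₂ : ℕ) (hk₁ : 2 * M ≤ 2 * k₁ * η₁) (hk₂ : 2 * M < k₂ * (M₀ - m)) (ε₁ : ℝ)
    (hε₁ : 0 ≤ ε₁) (hε₁' : ((2 * k₁ + (2 * k₂ + 2) : ℕ) : ℝ) * ε₁ ≤ s₁ / 8) (κ : ENNReal)
    (hκ1 : κ ≤ 1) (hκ : ∀ p ∈ Pts, κ ≤ μ (Icc (p - ε₁) (p + ε₁))) (h : ℝ) (hh : 0 < h)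
    (hh' : h ≤ s₁ / 8) (w : ENNReal) (hw : ∀ t, μ (Icc t (t + h)) ≤ w)
    (hwκ : d * w ≤ κ ^ (Nn d (2 * k₁ + (2 * k₂ + 2)))) (j : ℕ) (s : ℝ) (hs : s₁ ≤ s) (hsM : s ≤ M)
    (hD : Dom R P c j s) : Dom R P c (j + (k₁ + k₂ + 1)) (s - h) := by
  classical
  intro x hx z
  obtain ⟨T, hT⟩ : ∃ T, T = 2 * k₁ + (2 * k₂ + 2) := ⟨_, rfl⟩
  rw [← hT] at hε₁' hwκ
  have e1 : 2 * (j + (k₁ + k₂ + 1)) + 1 = T + (2 * j + 1) := by omega
  have e2 : 2 * (j + (k₁ + k₂ + 1)) = T + 2 * j := by omega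
  have hxT : x.2.length + T + (2 * j + 2) ≤ R + 1 := by omega
  rw [e1, e2]
  have hM0 : 0 ≤ M := by linarith
  -- the functionals
  set Lf : (Nd d → ℝ) → Nd d → ℝ := fun c => X c (fun _ => 0) (2 * j) with hLf
  set Hf : (Nd d → ℝ) → Nd d → ℝ := fun c => X c (fun _ => 0) (2 * j + 1) with hHf
  set Gf : (Nd d → ℝ) → Nd d → ℝ := fun c y => Lf c y + s with hGf
  have lL : Loc (2 * j) Lf := loc_zero _
  have lH : Loc (2 * j + 1) Hf := loc_zero _
  have lG : Loc (2 * j) Gf := lL.add s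
  set a : Ω → ℝ := fun ω => X (fun y => c y ω) (Gf (fun y => c y ω)) T x with ha
  set lo : Ω → ℝ := fun ω => X (fun y => c y ω) (Lf (fun y => c y ω)) T x with hlo
  have eH : ∀ ω, X (fun y => c y ω) (fun _ => 0) (T + (2 * j + 1)) x =
      X (fun y => c y ω) (Hf (fun y => c y ω)) T x := fun ω => (P2_shift hd _ _).2.1 _ _ _
  have eL : ∀ ω, X (fun y => c y ω) (fun _ => 0) (T + 2 * j) x = lo ω :=
    fun ω => (P2_shift hd _ _).2.1 _ _ _
  simp only [eH, eL]
  have ham : Measurable a := E.locm (lG.step T) x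
  have hlom : Measurable lo := E.locm (lL.step T) x
  have hTe : Even T := ⟨k₁ + k₂ + 1, by omega⟩
  -- bounds of the lower functional
  have hL0 : ∀ ω y, 0 ≤ Lf (fun y => c y ω) y ∧ Lf (fun y => c y ω) y ≤ M := fun ω y =>
    X_bd hd _ _ M (fun y => E.hM y ω) (fun _ => le_rfl) (fun _ => hM0) hM0 _ y
  have hL0' : ∀ (c : Nd d → ℝ) y, 0 ≤ Lf c y := by
    intro c y
    exact (P2_shift hd c c).2.2 _ _
  -- comparison
  have step1 : ∀ z', P {ω | z' < X (fun y => c y ω) (Hf (fun y => c y ω)) T x} ≤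
      P {ω | z' < a ω} := by
    refine (cmp hd E (lG.le (Nat.le_succ _)) lH T x (by omega) ?_).1 hTe
    intro y hy z'
    have := hD y (by omega) (z' - s)
    simp only [sub_add_cancel] at this
    refine this.trans (measure_mono ?_)
    intro ω hω
    have hω' : z' - s < Lf (fun y => c y ω) y := hω
    show z' < Lf (fun y => c y ω) y + s
    linarith
  refine (step1 _).trans ?_
  have hlo0 : ∀ ω, 0 ≤ lo ω := by
    intro ω
    simp only [hlo, hT]
    exact X_nonneg' _ _ _ _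
  rcases lt_or_ge z 0 with hz | hz
  · exact measure_mono fun ω _ => lt_of_lt_of_le hz (hlo0 ω)
  have hal : ∀ ω, a ω ≤ lo ω + s := by
    intro ω
    have := lip hd (fun y => c y ω) (fun y => c y ω) (Gf (fun y => c y ω)) (Lf (fun y => c y ω))
      (fun _ => 0) s (fun y => by simp) (fun y => by
        simp only [hGf]
        rw [add_sub_cancel_left, abs_of_nonneg (by linarith)]) T x
    rw [Finset.sum_const_zero, zero_add] at this
    have := (abs_le.1 this).2
    simp only [ha, hlo]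
    linarith
  have e3 : z + (s - h) = z + s - h := by ring
  rw [e3]
  by_cases hN : P {ω | z + s - h < a ω ∧ lo ω ≤ z} = 0
  · calc P {ω | z + s - h < a ω} ≤ P ({ω | z < lo ω} ∪ {ω | z + s - h < a ω ∧ lo ω ≤ z}) := by
          refine measure_mono fun ω hω => ?_
          rcases lt_or_ge z (lo ω) with h1 | h1
          · exact Or.inl h1
          · exact Or.inr ⟨hω, h1⟩
      _ ≤ P {ω | z < lo ω} + P {ω | z + s - h < a ω ∧ lo ω ≤ z} := measure_union_le _ _
      _ = P {ω | z < lo ω} := by rw [hN, add_zero]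
  -- a point with brackets
  have hbr : ∀ᵐ ω ∂P, ∀ y ∈ K, A (c y ω) ≤ c y ω ∧ c y ω ≤ B (c y ω) := by
    rw [ae_all_iff]
    intro y
    by_cases hy : y ∈ K
    · have h1 : ∀ᵐ t ∂(P.map (c y)), A t ≤ t ∧ t ≤ B t := by rw [E.hl y hy]; exact hae
      have h2 := ae_of_ae_map (E.me y).aemeasurable h1
      filter_upwards [h2] with ω hω _
      exact hω
    · exact Filter.Eventually.of_forall fun ω hy' => absurd hy' hy
  obtain ⟨ω₀, hω1, hω2⟩ : ∃ ω₀, (z + s - h < a ω₀ ∧ lo ω₀ ≤ z) ∧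
      ∀ y ∈ K, A (c y ω₀) ≤ c y ω₀ ∧ c y ω₀ ≤ B (c y ω₀) := by
    by_contra hcon
    push Not at hcon
    apply hN
    refine measure_mono_null ?_ (ae_iff.1 hbr)
    intro ω hω
    simp only [Set.mem_ofPred_eq]
    intro h1
    obtain ⟨y, hy, h2⟩ := hcon ω hω
    exact absurd (h1 y hy).2 (not_le.2 (h2 (h1 y hy).1))
  have hBr : Br K (fun y => A (c y ω₀)) (fun y => B (c y ω₀)) (fun y => c y ω₀) m M₀ (s₁ / 4) η₁ :=
    { m0 := hm0, mM := hmM, h0 := hη₁.le, hc0 := fun y hy => E.hK y hy ω₀,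
      ha := fun y _ => (hAB _).2.2.2.2.1, hb := fun y _ => (hAB _).2.2.2.2.2,
      hab := fun y _ => (hAB _).2.2.1, hab' := fun y _ => (hAB _).2.2.2.1,
      hac := fun y hy => (hω2 y hy).1, hcb := fun y hy => (hω2 y hy).2 }
  have hGB : ∀ ω y, 0 ≤ Gf (fun y => c y ω) y ∧ Gf (fun y => c y ω) y ≤ 2 * M := by
    intro ω y
    have := hL0 ω y
    simp only [hGf]
    constructor <;> linarith [this.1, this.2]
  have hLB : ∀ ω y, 0 ≤ Lf (fun y => c y ω) y ∧ Lf (fun y => c y ω) y ≤ 2 * M := by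
    intro ω y
    have := hL0 ω y
    constructor <;> linarith [this.1, this.2]
  have hpe : Even (x.2.length + x.2.length) := ⟨_, rfl⟩
  obtain ⟨k, hl, hξ1, hξ2⟩ := window hd K _ _ _ m M₀ (s₁ / 4) η₁ (2 * M) hBr (by linarith)
    x.2.length k₁ k₂ x hpe hk₁ hk₂ (Lf (fun y => c y ω₀)) (Gf (fun y => c y ω₀))
    (fun y => (hLB ω₀ y).1) (fun y => (hLB ω₀ y).2) (fun y => (hGB ω₀ y).1)
    (fun y => (hGB ω₀ y).2) (z + s / 4)
    (by
      have := hω1.2
      simp only [hlo, hT] at this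
      linarith)
    (by
      have := hω1.1
      simp only [ha, hT] at this
      linarith)
  set q : Nd d → ℝ := pat K (fun y => A (c y ω₀)) (fun y => B (c y ω₀)) m M₀ x.2.length x.2.length
    (2 * k₁) k hl with hq
  have hqP : ∀ y ∈ K, q y ∈ Pts := by
    intro y hy
    rcases pat_mem K (fun y => A (c y ω₀)) (fun y => B (c y ω₀)) m M₀ x.2.length x.2.length
      (2 * k₁) k hl y hy with h1 | h1 | h1 | h1 <;> rw [hq, h1]
    · exact (hAB _).1
    · exact (hAB _).2.1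
    · exact hmP
    · exact hMP
  have hcyl := E.cyl T x (by omega) q ε₁ κ hκ1 (fun y hy => hκ _ (hqP y hy))
  -- values near the pattern
  have hval : ∀ ω, (∀ y ∈ desc T x, y ∈ K → |c y ω - q y| ≤ ε₁) → ∀ β : Nd d → ℝ,
      (∀ y, 0 ≤ β y) → (∀ y, β y ≤ 2 * M) →
      |X (fun y => c y ω) β T x - X q (fun _ => 0) T x| ≤ s₁ / 8 := by
    intro ω hω β hβ0 hβ
    let c' : Nd d → ℝ := fun y => if y ∈ desc T x then c y ω else q y
    have h1 : X (fun y => c y ω) β T x = X c' β T x := by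
      apply L1a_dep
      intro l hl hln
      have : (x.1, l ++ x.2) ∈ desc T x := ⟨l, hl, hln, rfl⟩
      simp only [c']
      rw [if_pos this]
    have h2 : X q β T x = X q (fun _ => 0) T x := by
      rw [hT]
      exact pat_indep hd K _ _ _ m M₀ (s₁ / 4) η₁ (2 * M) hBr (by linarith) x.2.length (2 * k₁) k₂
        k hl x hpe ⟨k₁, by ring⟩ hk₂ β (fun _ => 0) hβ0 hβ (fun _ => le_rfl) (fun _ => by linarith)
    rw [h1, ← h2]
    refine (lip hd c' q β β (fun _ => ε₁) 0 ?_ (fun y => by simp) T x).trans ?_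
    · intro y
      simp only [c']
      split_ifs with hy
      · by_cases hK : y ∈ K
        · exact hω y hy hK
        · rw [E.hK y hK, hq, pat_zero _ _ _ _ _ _ _ _ _ _ y hK, sub_zero, abs_zero]
          exact hε₁
      · rw [sub_self, abs_zero]
        exact hε₁
    · rw [Finset.sum_const, Finset.card_range, nsmul_eq_mul, add_zero]
      exact hε₁'
  rw [← hT] at hξ1 hξ2
  -- the final computation
  set Q : Set Ω := {ω | a ω ≤ z + s - h ∧ z < lo ω} with hQ
  have hQm : MeasurableSet Q :=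
    (measurableSet_le ham measurable_const).inter (measurableSet_lt measurable_const hlom)
  have hNQ : κ ^ (Nn d T) ≤ P Q := by
    refine hcyl.trans (measure_mono fun ω hω => ?_)
    have v1 := abs_le.1 (hval ω hω _ (fun y => (hGB ω y).1) (fun y => (hGB ω y).2))
    have v2 := abs_le.1 (hval ω hω _ (fun y => (hLB ω y).1) (fun y => (hLB ω y).2))
    refine ⟨?_, ?_⟩
    · have : a ω = X (fun y => c y ω) (Gf (fun y => c y ω)) T x := rfl
      rw [this]
      linarith [v1.2]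
    · have : lo ω = X (fun y => c y ω) (Lf (fun y => c y ω)) T x := rfl
      rw [this]
      linarith [v2.1]
  have hslab : P {ω | z + s - h < a ω ∧ a ω ≤ z + s} ≤ d * w := by
    obtain ⟨n, hn⟩ : ∃ n, T = n + 1 := ⟨2 * k₁ + 2 * k₂ + 1, by omega⟩
    have := slab hd E lG (fun c y => by
      simp only [hGf]
      linarith [hL0' c y]) n x (by omega) (z + s - h) h (by linarith) w hw
    rw [sub_add_cancel] at this
    have e : ∀ ω, a ω = X (fun y => c y ω) (Gf (fun y => c y ω)) (n + 1) x := by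
      intro ω
      simp only [ha, hn]
    simp only [e]
    exact this
  calc P {ω | z + s - h < a ω} ≤ P ({ω | z + s < a ω} ∪ {ω | z + s - h < a ω ∧ a ω ≤ z + s}) := by
        refine measure_mono fun ω hω => ?_
        rcases lt_or_ge (z + s) (a ω) with h1 | h1
        · exact Or.inl h1
        · exact Or.inr ⟨hω, h1⟩
    _ ≤ P {ω | z + s < a ω} + P {ω | z + s - h < a ω ∧ a ω ≤ z + s} := measure_union_le _ _
    _ ≤ P {ω | z + s < a ω} + P Q := add_le_add le_rfl (hslab.trans (hwκ.trans hNQ))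
    _ = P ({ω | z + s < a ω} ∪ Q) := by
        rw [measure_union ?_ hQm]
        rw [Set.disjoint_left]
        intro ω h1 h2
        have h1' : z + s < a ω := h1
        linarith [h2.1]
    _ ≤ P {ω | z < lo ω} := by
        refine measure_mono ?_
        rintro ω (h1 | h1)
        · have h1' : z + s < a ω := h1
          show z < lo ω
          linarith [hal ω]
        · exact h1.2

end Pool.Agent.K6.H21.MW
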