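import Pool.Agent.K6.H21.MW.Imp2

set_option autoImplicit false

/-! Iteration of the improvement and the bound at the root. -/

namespace Pool.Agent.K6.H21.MW

open Set MeasureTheory ProbabilityTheory Filter Topology Pool.Agent.Helper31_MW

variable {d : ℕ}

theorem improve (hd : 1 ≤ d) (μ : Measure ℝ) [IsProbabilityMeasure μ]
    (hatom : ∀ x : ℝ, μ {x} = 0) (M : ℝ) (h0 : μ (Iio 0) = 0) (hM : μ (Ioi M) = 0) (s₁ : ℝ)
    (hs₁ : 0 < s₁) : ∃ (τ : ℕ) (h : ℝ), 0 < h ∧ ∀ (R : ℕ) (K : Set (Nd d)) (Ω : Type)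
      (_ : MeasurableSpace Ω) (P : Measure Ω) (_ : IsProbabilityMeasure P) (c : Nd d → Ω → ℝ),
      Env R K μ M P c → ∀ (j : ℕ) (s : ℝ), s₁ ≤ s → s ≤ M → Dom R P c j s →
      Dom R P c (j + τ) (s - h) := by
  obtain ⟨Pts, η₁, m, M₀, A, B, hη₁, hm0, hmM, hMM, hmP, hMP, hae, hAB, hPs⟩ :=
    brackets μ hatom M h0 hM (s₁ / 4) (by linarith)
  have hMm : 0 < M₀ - m := sub_pos.2 hmM
  set k₁ : ℕ := ⌈M / η₁⌉₊ with hk₁
  set k₂ : ℕ := ⌊2 * M / (M₀ - m)⌋₊ + 1 with hk₂
  have h1 : 2 * M ≤ 2 * k₁ * η₁ := by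
    have := Nat.le_ceil (M / η₁)
    rw [← hk₁, div_le_iff₀ hη₁] at this
    linarith
  have h2 : 2 * M < k₂ * (M₀ - m) := by
    have := Nat.lt_floor_add_one (2 * M / (M₀ - m))
    rw [div_lt_iff₀ hMm] at this
    rw [hk₂]
    push_cast
    exact this
  set T : ℕ := 2 * k₁ + (2 * k₂ + 2) with hT
  have hT0 : (0 : ℝ) < T := by
    have : 0 < T := by omega
    exact_mod_cast this
  set ε₁ : ℝ := s₁ / (8 * T) with hε₁
  have hε₁0 : 0 < ε₁ := by positivity
  have hε₁' : (T : ℝ) * ε₁ ≤ s₁ / 8 := by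
    rw [hε₁]
    apply le_of_eq
    field_simp
  have hPne : Pts.Nonempty := ⟨m, hmP⟩
  set κ : ENNReal := Pts.inf' hPne (fun p => μ (Icc (p - ε₁) (p + ε₁))) with hκ
  have hκ0 : 0 < κ := by
    rw [hκ, Finset.lt_inf'_iff]
    intro p hp
    exact (Measure.mem_support_iff_forall p).1 (hPs p hp) _ (Icc_mem_nhds (by linarith) (by linarith))
  have hκ1 : κ ≤ 1 := (Finset.inf'_le _ hmP).trans prob_le_one
  have hκ2 : ∀ p ∈ Pts, κ ≤ μ (Icc (p - ε₁) (p + ε₁)) := fun p hp => Finset.inf'_le _ hp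
  have hκT : 0 < κ ^ (Nn d T) := ENNReal.pow_pos hκ0 _
  obtain ⟨h', hh', hw⟩ := modulus μ hatom M h0 hM (κ ^ (Nn d T) / d)
    (ENNReal.div_pos hκT.ne' (by simp))
  have hdw : (d : ENNReal) * (κ ^ (Nn d T) / d) ≤ κ ^ (Nn d T) := ENNReal.mul_div_le
  refine ⟨k₁ + k₂ + 1, min h' (s₁ / 8), lt_min hh' (by linarith), ?_⟩
  intro R K Ω _ P hP c E j s hs hsM hD
  refine improve_core hd E Pts s₁ η₁ m M₀ A B hs₁ hη₁ hm0 hmM hMM hmP hMP hae hAB k₁ k₂ h1 h2 ε₁
    hε₁0.le hε₁' κ hκ1 hκ2 _ (lt_min hh' (by linarith)) (min_le_right _ _)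
    (κ ^ (Nn d T) / d) (fun t => (measure_mono ?_).trans (hw t)) hdw j s hs hsM hD
  exact Icc_subset_Icc_right (by linarith [min_le_left h' (s₁ / 8)])

section

variable {R : ℕ} {K : Set (Nd d)} {μ : Measure ℝ} {M : ℝ} {Ω : Type} [MeasurableSpace Ω]
  {P : Measure Ω} [IsProbabilityMeasure P] {c : Nd d → Ω → ℝ}

theorem dom_zero (hd : 1 ≤ d) (hM0 : 0 ≤ M) (E : Env R K μ M P c) : Dom R P c 0 M := by
  intro x _ z
  rcases lt_or_ge z 0 with hz | hz
  · exact measure_mono fun ω _ => hz
  · have : {ω | z + M < X (fun y => c y ω) (fun _ => 0) (2 * 0 + 1) x} = ∅ := by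
      ext ω
      simp only [Set.mem_ofPred_eq, Set.mem_empty_iff_false, iff_false, not_lt]
      have := (X_bd hd (fun y => c y ω) (fun _ => 0) M (fun y => E.hM y ω) (fun _ => le_rfl)
        (fun _ => hM0) hM0 (2 * 0 + 1) x).2
      linarith
    rw [this, measure_empty]
    exact zero_le

theorem dom_mono_s {j : ℕ} {s s' : ℝ} (h : s ≤ s') (hD : Dom R P c j s) : Dom R P c j s' := by
  intro x hx z
  refine (measure_mono fun ω hω => ?_).trans (hD x hx z)
  have hω' : z + s' < X (fun y => c y ω) (fun _ => 0) (2 * j + 1) x := hω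
  show z + s < X (fun y => c y ω) (fun _ => 0) (2 * j + 1) x
  linarith

theorem dom_mono_j (hd : 1 ≤ d) {j j' : ℕ} {s : ℝ} (h : j ≤ j') (hD : Dom R P c j s) :
    Dom R P c j' s := by
  intro x hx z
  obtain ⟨i, rfl⟩ := Nat.exists_eq_add_of_le h
  refine (measure_mono fun ω hω => ?_).trans ((hD x (by omega) z).trans
    (measure_mono fun ω hω => ?_))
  · have hω' : z + s < X (fun y => c y ω) (fun _ => 0) (2 * (j + i) + 1) x := hω
    show z + s < X (fun y => c y ω) (fun _ => 0) (2 * j + 1) x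
    have := (order_all hd (fun y => c y ω)).2.2.1 (2 * j + 1) (2 * i) x ⟨j, rfl⟩
    rw [show 2 * j + 1 + 2 * i = 2 * (j + i) + 1 by ring] at this
    linarith
  · have hω' : z < X (fun y => c y ω) (fun _ => 0) (2 * j) x := hω
    show z < X (fun y => c y ω) (fun _ => 0) (2 * (j + i)) x
    have := (order_all hd (fun y => c y ω)).2.1 (2 * j) (2 * i) x ⟨j, by ring⟩
    rw [show 2 * j + 2 * i = 2 * (j + i) by ring] at this
    linarith

end

theorem dom_all (hd : 1 ≤ d) (μ : Measure ℝ) [IsProbabilityMeasure μ]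
    (hatom : ∀ x : ℝ, μ {x} = 0) (M : ℝ) (hM0 : 0 ≤ M) (h0 : μ (Iio 0) = 0) (hM : μ (Ioi M) = 0)
    (s₁ : ℝ) (hs₁ : 0 < s₁) : ∃ n₁ : ℕ, ∀ j, n₁ ≤ j → ∀ (R : ℕ) (K : Set (Nd d)) (Ω : Type)
      (_ : MeasurableSpace Ω) (P : Measure Ω) (_ : IsProbabilityMeasure P) (c : Nd d → Ω → ℝ),
      Env R K μ M P c → Dom R P c j s₁ := by
  obtain ⟨τ, h, hh, himp⟩ := improve hd μ hatom M h0 hM s₁ hs₁
  have key : ∀ k : ℕ, ∀ (R : ℕ) (K : Set (Nd d)) (Ω : Type)
      (_ : MeasurableSpace Ω) (P : Measure Ω) (_ : IsProbabilityMeasure P) (c : Nd d → Ω → ℝ),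
      Env R K μ M P c → Dom R P c (k * τ) (max s₁ (M - k * h)) := by
    intro k
    induction k with
    | zero =>
      intro R K Ω _ P hP c E
      rw [Nat.zero_mul]
      exact dom_mono_s (by simp) (dom_zero hd hM0 E)
    | succ k ih =>
      intro R K Ω _ P hP c E
      rcases le_or_gt s₁ M with h1 | h1
      · have h2 := himp R K Ω _ P hP c E (k * τ) (max s₁ (M - k * h)) (le_max_left _ _)
          (max_le h1 (by nlinarith [Nat.cast_nonneg (α := ℝ) k])) (ih R K Ω _ P hP c E)
        rw [show k * τ + τ = (k + 1) * τ by ring] at h2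
        refine dom_mono_s ?_ h2
        push_cast
        rcases max_cases s₁ (M - k * h) with ⟨e, _⟩ | ⟨e, _⟩
        · rw [e]
          exact le_trans (by linarith) (le_max_left _ _)
        · rw [e]
          exact le_trans (by linarith) (le_max_right _ _)
      · exact dom_mono_s (h1.le.trans (le_max_left _ _))
          (dom_mono_j hd (Nat.zero_le _) (dom_zero hd hM0 E))
  refine ⟨⌈M / h⌉₊ * τ, fun j hj R K Ω _ P hP c E => ?_⟩
  have h1 := key ⌈M / h⌉₊ R K Ω _ P hP c E
  have h2 : M - (⌈M / h⌉₊ : ℝ) * h ≤ s₁ := by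
    have := Nat.le_ceil (M / h)
    rw [div_le_iff₀ hh] at this
    linarith
  rw [max_eq_left h2] at h1
  exact dom_mono_j hd hj h1

section

variable {R : ℕ} {K : Set (Nd d)} {μ : Measure ℝ} {M : ℝ} {Ω : Type} [MeasurableSpace Ω]
  {P : Measure Ω} [IsProbabilityMeasure P] {c : Nd d → Ω → ℝ}

theorem desc_root_ok {k : ℕ} (hk : k ≤ R + 1) (b : Bool) :
    ∀ y ∈ desc k ((b, []) : Nd d), y ≠ (true, []) ∧ y.2.length ≤ R + 1 := by
  rintro y ⟨l, hl, hlk, rfl⟩
  have : 0 < l.length := List.length_pos_iff.2 hl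
  refine ⟨ne_of_len (by simp only [List.append_nil]; exact this), ?_⟩
  simp only [List.append_nil]
  omega

theorem root_not_desc (k : ℕ) (b b' : Bool) : ((b', []) : Nd d) ∉ desc k ((b, []) : Nd d) := by
  rintro ⟨l, hl, _, h⟩
  have := (Prod.mk.inj h).2
  simp only [List.append_nil] at this
  exact hl this.symm

theorem Env.ind_root (E : Env R K μ M P c) {k : ℕ} {G G' : (Nd d → ℝ) → Nd d → ℝ}
    (hG : Loc k G) (hG' : Loc k G') (hk : k ≤ R + 1) (b : Bool) :
    IndepFun (fun ω => c (false, []) ω - G (fun y => c y ω) (b, []))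
      (fun ω => G' (fun y => c y ω) (!b, [])) P := by
  have h := J_L3_root.blocks P c R E.me E.hi (insert (false, []) (desc k ((b, []) : Nd d)))
    (desc k ((!b, []) : Nd d))
    (by
      rintro y (rfl | hy)
      · exact ⟨by simp, by simp⟩
      · exact desc_root_ok hk b y hy)
    (desc_root_ok hk (!b))
    (by
      rw [Set.disjoint_left]
      rintro y (rfl | ⟨l, _, _, rfl⟩) hy
      · exact root_not_desc k _ _ hy
      · obtain ⟨l', _, _, h⟩ := hy
        have := (Prod.mk.inj h).1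
        cases b <;> simp at this)
  have hφ : Measurable (fun g : Nd d → ℝ => g (false, []) - G g (b, [])) :=
    (measurable_pi_apply _).sub (hG.me _)
  have h2 := h.comp hφ (hG'.me (!b, []))
  have e1 : ((fun g : Nd d → ℝ => g (false, []) - G g (b, [])) ∘
      fun ω => (insert (false, []) (desc k ((b, []) : Nd d))).indicator (fun y => c y ω)) =
      fun ω => c (false, []) ω - G (fun y => c y ω) (b, []) := by
    funext ω
    simp only [Function.comp]
    rw [hG.ind _ _ _ (Set.subset_insert _ _), Set.indicator_of_mem (Set.mem_insert _ _)]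
  have e2 : ((fun g : Nd d → ℝ => G' g (!b, [])) ∘
      fun ω => (desc k ((!b, []) : Nd d)).indicator (fun y => c y ω)) =
      fun ω => G' (fun y => c y ω) (!b, []) := by
    funext ω
    exact hG'.ind _ _ _ le_rfl
  rw [e1, e2] at h2
  exact h2

theorem Env.ind_sum (E : Env R K μ M P c) {k : ℕ} {G : (Nd d → ℝ) → Nd d → ℝ}
    (hG : Loc k G) (hk : k ≤ R + 1) :
    IndepFun (c (false, []))
      (fun ω => G (fun y => c y ω) (false, []) + G (fun y => c y ω) (true, [])) P := by
  have h := J_L3_root.blocks P c R E.me E.hi {((false, []) : Nd d)}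
    (desc k ((false, []) : Nd d) ∪ desc k ((true, []) : Nd d))
    (by
      rintro y rfl
      exact ⟨by simp, by simp⟩)
    (by
      rintro y (hy | hy)
      · exact desc_root_ok hk _ y hy
      · exact desc_root_ok hk _ y hy)
    (by
      rw [Set.disjoint_left]
      rintro y rfl (hy | hy)
      · exact root_not_desc k _ _ hy
      · exact root_not_desc k _ _ hy)
  have hφ : Measurable (fun g : Nd d → ℝ => g (false, [])) := measurable_pi_apply _
  have hψ : Measurable (fun g : Nd d → ℝ => G g (false, []) + G g (true, [])) :=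
    (hG.me _).add (hG.me _)
  have h2 := h.comp hφ hψ
  have e1 : ((fun g : Nd d → ℝ => g (false, [])) ∘
      fun ω => ({((false, []) : Nd d)} : Set (Nd d)).indicator (fun y => c y ω)) =
      c (false, []) := by
    funext ω
    simp
  have e2 : ((fun g : Nd d → ℝ => G g (false, []) + G g (true, [])) ∘
      fun ω => (desc k ((false, []) : Nd d) ∪ desc k ((true, []) : Nd d)).indicator
        (fun y => c y ω)) =
      fun ω => G (fun y => c y ω) (false, []) + G (fun y => c y ω) (true, []) := by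
    funext ω
    simp only [Function.comp]
    rw [hG.ind _ _ _ Set.subset_union_left, hG.ind _ _ _ Set.subset_union_right]
  rw [e1, e2] at h2
  exact h2

/-- The bound at the root. -/
theorem root_bound (hd : 1 ≤ d) (E : Env R K μ M P c) (hu : (false, []) ∈ K) (j : ℕ)
    (hj : 2 * j + 2 ≤ R + 1) (s : ℝ) (hD : Dom R P c j s) (w : ENNReal)
    (hw : ∀ t, μ (Icc t (t + 2 * s)) ≤ w) :
    P {ω | X (fun y => c y ω) (fun _ => 0) (2 * j) (false, []) +
        X (fun y => c y ω) (fun _ => 0) (2 * j) (true, []) ≤ c (false, []) ω ∧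
      c (false, []) ω ≤ X (fun y => c y ω) (fun _ => 0) (2 * j + 1) (false, []) +
        X (fun y => c y ω) (fun _ => 0) (2 * j + 1) (true, [])} ≤ w := by
  set Lf : (Nd d → ℝ) → Nd d → ℝ := fun c => X c (fun _ => 0) (2 * j) with hLf
  set Hf : (Nd d → ℝ) → Nd d → ℝ := fun c => X c (fun _ => 0) (2 * j + 1) with hHf
  set Gf : (Nd d → ℝ) → Nd d → ℝ := fun c y => Lf c y + s with hGf
  have lL : Loc (2 * j + 1) Lf := (loc_zero _).le (Nat.le_succ _)
  have lH : Loc (2 * j + 1) Hf := loc_zero _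
  have lG : Loc (2 * j + 1) Gf := lL.add s
  have hk : 2 * j + 1 ≤ R + 1 := by omega
  have hdom : ∀ (b : Bool) z, P {ω | z < Hf (fun y => c y ω) (b, [])} ≤
      P {ω | z < Gf (fun y => c y ω) (b, [])} := by
    intro b z
    have := hD ((b, []) : Nd d) (by simpa using hj) (z - s)
    simp only [sub_add_cancel] at this
    refine this.trans (measure_mono ?_)
    intro ω hω
    have hω' : z - s < Lf (fun y => c y ω) (b, []) := hω
    show z < Lf (fun y => c y ω) (b, []) + s
    linarith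
  have p1 := pair_le _ _ _ ((E.me _).sub (E.locm lH _)) (E.locm lG _) (E.locm lH _)
    (E.ind_root lH lG hk true) (E.ind_root lH lH hk true) (hdom _) 0
  have p2 := pair_le _ _ _ ((E.me _).sub (E.locm lG _)) (E.locm lG _) (E.locm lH _)
    (E.ind_root lG lG hk false) (E.ind_root lG lH hk false) (hdom _) 0
  have p3 := ioc_le _ _ (E.me (false, [])) ((E.locm lL (false, [])).add (E.locm lL (true, [])))
    (E.ind_sum lL hk) (2 * s) w (by rw [E.hl _ hu]; exact hw) 0
  simp only [Bool.not_true, Bool.not_false, Pi.sub_apply] at p1 p2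
  simp only [Pi.add_apply] at p3
  set SL : Ω → ℝ := fun ω => Lf (fun y => c y ω) (false, []) + Lf (fun y => c y ω) (true, []) with hSL
  set SU : Ω → ℝ := fun ω => Hf (fun y => c y ω) (false, []) + Hf (fun y => c y ω) (true, []) with hSU
  have hSLm : Measurable SL := (E.locm lL _).add (E.locm lL _)
  have hSUm : Measurable SU := (E.locm lH _).add (E.locm lH _)
  have hLU : ∀ ω, SL ω ≤ SU ω := by
    intro ω
    have := (order_all hd (fun y => c y ω)).2.1 (2 * j) 1
    exact add_le_add (this _ ⟨j, by ring⟩) (this _ ⟨j, by ring⟩)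
  have q1 : P {ω | c (false, []) ω ≤ SU ω} ≤ P {ω | c (false, []) ω ≤ SL ω + 2 * s} := by
    refine le_trans (le_of_eq ?_) (p1.trans (le_trans (le_of_eq ?_) (p2.trans (le_of_eq ?_))))
    · congr 1
      ext ω
      simp only [Set.mem_ofPred_eq, hSU]
      constructor <;> intro h <;> linarith
    · congr 1
      ext ω
      simp only [Set.mem_ofPred_eq]
      constructor <;> intro h <;> linarith
    · congr 1
      ext ω
      simp only [Set.mem_ofPred_eq, hSL, hGf]
      constructor <;> intro h <;> linarith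
  have hDm : MeasurableSet {ω | SL ω ≤ c (false, []) ω ∧ c (false, []) ω ≤ SU ω} :=
    (measurableSet_le hSLm (E.me _)).inter (measurableSet_le (E.me _) hSUm)
  have q2 : P {ω | c (false, []) ω < SL ω} +
      P {ω | SL ω ≤ c (false, []) ω ∧ c (false, []) ω ≤ SU ω} = P {ω | c (false, []) ω ≤ SU ω} := by
    rw [← measure_union ?_ hDm]
    · congr 1
      ext ω
      simp only [Set.mem_union, Set.mem_ofPred_eq]
      constructor
      · rintro (h | h)
        · exact h.le.trans (hLU ω)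
        · exact h.2
      · intro h
        rcases lt_or_ge (c (false, []) ω) (SL ω) with h1 | h1
        · exact Or.inl h1
        · exact Or.inr ⟨h1, h⟩
    · rw [Set.disjoint_left]
      intro ω h1 h2
      have h1' : c (false, []) ω < SL ω := h1
      linarith [h2.1]
  have q3 : P {ω | c (false, []) ω ≤ SL ω + 2 * s} ≤ P {ω | c (false, []) ω < SL ω} + w := by
    calc _ ≤ P ({ω | c (false, []) ω < SL ω} ∪
          {ω | 0 ≤ c (false, []) ω - SL ω ∧ c (false, []) ω - SL ω ≤ 0 + 2 * s}) := by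
          refine measure_mono fun ω hω => ?_
          have hω' : c (false, []) ω ≤ SL ω + 2 * s := hω
          rcases lt_or_ge (c (false, []) ω) (SL ω) with h1 | h1
          · exact Or.inl h1
          · refine Or.inr ⟨by linarith, by linarith⟩
      _ ≤ _ := (measure_union_le _ _).trans (add_le_add le_rfl p3)
  have q4 := (q2.le.trans q1).trans q3
  exact (ENNReal.add_le_add_iff_left (measure_ne_top _ _)).1 q4

end

end Pool.Agent.K6.H21.MW
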