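import Pool.Agent.K6.H21.MW.Win

set_option autoImplicit false

/-! Laws: independence of disjoint blocks, comparison. -/

namespace Pool.Agent.K6.H21.MW

open Set MeasureTheory ProbabilityTheory Filter Topology Pool.Agent.Helper31_MW

variable {d : ℕ}

/-- Local measurable functionals of the weights. -/
structure Loc (k : ℕ) (G : (Nd d → ℝ) → Nd d → ℝ) : Prop where
  me : ∀ x, Measurable fun c => G c x
  dep : ∀ (c c' : Nd d → ℝ) (x : Nd d), (∀ l : List (Fin d), l ≠ [] → l.length ≤ k →
    c (x.1, l ++ x.2) = c' (x.1, l ++ x.2)) → G c x = G c' x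

theorem Loc.step {k : ℕ} {G : (Nd d → ℝ) → Nd d → ℝ} (hG : Loc k G) :
    ∀ n, Loc (k + n) (fun c => X c (G c) n) := by
  intro n
  induction n with
  | zero => exact hG
  | succ n ih =>
    refine ⟨fun x => ?_, fun c c' x h => ?_⟩
    · simp only [X_succ]
      exact Measurable.iSup fun i => measurable_const.max ((measurable_pi_apply _).sub (ih.me _))
    · rw [X_succ, X_succ]
      congr 1
      ext i
      have h1 : c (child x i) = c' (child x i) := by
        have := h [i] (by simp) (by simp; omega)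
        simpa [child] using this
      have h2 : X c (G c) n (child x i) = X c' (G c') n (child x i) := by
        apply ih.dep
        intro l hl hn
        have := h (l ++ [i]) (by simp) (by simp; omega)
        simpa [child] using this
      rw [h1, h2]

theorem loc_zero (n : ℕ) : Loc n (fun c : Nd d → ℝ => X c (fun _ => 0) n) := by
  have : Loc 0 (fun (_ : Nd d → ℝ) (_ : Nd d) => (0 : ℝ)) := ⟨fun _ => measurable_const, fun _ _ _ _ => rfl⟩
  have h := this.step n
  rwa [Nat.zero_add] at h

theorem Loc.add {k : ℕ} {G : (Nd d → ℝ) → Nd d → ℝ} (hG : Loc k G) (s : ℝ) :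
    Loc k (fun c y => G c y + s) :=
  ⟨fun x => (hG.me x).add_const s, fun c c' x h => by
    show G c x + s = G c' x + s
    rw [hG.dep c c' x h]⟩

theorem Loc.le {k k' : ℕ} (h : k ≤ k') {G : (Nd d → ℝ) → Nd d → ℝ} (hG : Loc k G) : Loc k' G :=
  ⟨hG.me, fun c c' x hx => hG.dep c c' x fun l hl hlk => hx l hl (hlk.trans h)⟩

/-- An environment of weights. -/
structure Env (R : ℕ) (K : Set (Nd d)) (μ : Measure ℝ) (M : ℝ) {Ω : Type} [MeasurableSpace Ω]
    (P : Measure Ω) (c : Nd d → Ω → ℝ) : Prop where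
  me : ∀ y, Measurable (c y)
  h0 : ∀ y ω, 0 ≤ c y ω
  hM : ∀ y ω, c y ω ≤ M
  hK : ∀ y, y ∉ K → ∀ ω, c y ω = 0
  hl : ∀ y ∈ K, P.map (c y) = μ
  hi : iIndepFun (fun (y : {y : Nd d // y ≠ (true, []) ∧ y.2.length ≤ R + 1}) => c y) P

/-- The vertices of the subtree of the child `i` of `x`, `k` levels deep. -/
def blk (k : ℕ) (x : Nd d) (i : Fin d) : Set (Nd d) :=
  {y | ∃ l : List (Fin d), l.length ≤ k ∧ y = (x.1, l ++ i :: x.2)}

/-- The strict descendants. -/
def desc (k : ℕ) (x : Nd d) : Set (Nd d) :=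
  {y | ∃ l : List (Fin d), l ≠ [] ∧ l.length ≤ k ∧ y = (x.1, l ++ x.2)}

theorem child_mem_blk (k : ℕ) (x : Nd d) (i : Fin d) : child x i ∈ blk k x i :=
  ⟨[], by simp, rfl⟩

theorem desc_sub_blk (k : ℕ) (x : Nd d) (i : Fin d) : desc k (child x i) ⊆ blk k x i := by
  rintro y ⟨l, _, hl, rfl⟩
  exact ⟨l, hl, rfl⟩

theorem blk_disj (k : ℕ) (x : Nd d) (i j : Fin d) (hij : i ≠ j) : Disjoint (blk k x i) (blk k x j) := by
  rw [Set.disjoint_left]
  rintro y ⟨l, hl, rfl⟩ ⟨l', hl', h⟩
  apply hij
  have h2 := (Prod.mk.inj h).2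
  have h3 : l.length = l'.length := by
    have := congrArg List.length h2
    simp only [List.length_append, List.length_cons] at this
    omega
  exact (List.cons.inj (List.append_inj h2 h3).2).1

theorem ne_of_len {y : Nd d} (h : 0 < y.2.length) : y ≠ (true, []) := by
  rintro rfl
  simp at h

theorem blk_ok {k R : ℕ} {x : Nd d} (hx : x.2.length + 1 + k ≤ R + 1) (i : Fin d) :
    ∀ y ∈ blk k x i, y ≠ (true, []) ∧ y.2.length ≤ R + 1 := by
  rintro y ⟨l, hl, rfl⟩
  refine ⟨ne_of_len (by simp only [List.length_append, List.length_cons]; omega), ?_⟩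
  simp only [List.length_append, List.length_cons]
  omega

theorem Loc.ind {k : ℕ} {G : (Nd d → ℝ) → Nd d → ℝ} (hG : Loc k G) (c : Nd d → ℝ) (x : Nd d)
    (D : Set (Nd d)) (hD : desc k x ⊆ D) : G (D.indicator c) x = G c x := by
  apply hG.dep
  intro l hl hk
  exact Set.indicator_of_mem (hD ⟨l, hl, hk, rfl⟩) _

variable {R : ℕ} {K : Set (Nd d)} {μ : Measure ℝ} {M : ℝ} {Ω : Type} [MeasurableSpace Ω]
  {P : Measure Ω} [IsProbabilityMeasure P] {c : Nd d → Ω → ℝ}

theorem Env.meas (E : Env R K μ M P c) : Measurable (fun ω (y : Nd d) => c y ω) :=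
  measurable_pi_lambda _ fun y => E.me y

theorem Env.locm (E : Env R K μ M P c) {k : ℕ} {G : (Nd d → ℝ) → Nd d → ℝ} (hG : Loc k G)
    (x : Nd d) : Measurable (fun ω => G (fun y => c y ω) x) := (hG.me x).comp E.meas

/-- The weight of an edge is independent of the functional below. -/
theorem Env.ind (E : Env R K μ M P c) {k : ℕ} {G : (Nd d → ℝ) → Nd d → ℝ} (hG : Loc k G)
    (x : Nd d) (hx0 : 0 < x.2.length) (hx : x.2.length + k ≤ R + 1) :
    IndepFun (c x) (fun ω => G (fun y => c y ω) x) P := by
  have h := J_L3_root.blocks P c R E.me E.hi {x} (desc k x)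
    (by
      rintro y rfl
      exact ⟨ne_of_len hx0, by omega⟩)
    (by
      rintro y ⟨l, hl, hlk, rfl⟩
      refine ⟨ne_of_len (by simp only [List.length_append]; omega), ?_⟩
      simp only [List.length_append]
      omega)
    (by
      rw [Set.disjoint_left]
      rintro y hy ⟨l, hl, hlk, h⟩
      rw [Set.mem_singleton_iff] at hy
      rw [hy] at h
      have := congrArg (fun z : Nd d => z.2.length) h
      simp only [List.length_append] at this
      exact hl (List.length_eq_zero_iff.1 (by omega)))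
  have hφ : Measurable (fun g : Nd d → ℝ => g x) := measurable_pi_apply x
  have h2 := h.comp hφ (hG.me x)
  have e1 : ((fun g : Nd d → ℝ => g x) ∘ fun ω => ({x} : Set (Nd d)).indicator (fun y => c y ω)) = c x := by
    funext ω
    simp
  have e2 : ((fun g : Nd d → ℝ => G g x) ∘ fun ω => (desc k x).indicator (fun y => c y ω)) =
      fun ω => G (fun y => c y ω) x := by
    funext ω
    exact hG.ind _ _ _ le_rfl
  rw [e1, e2] at h2
  exact h2

/-- Product formula over the children. -/
theorem Env.prod (E : Env R K μ M P c) {k : ℕ} {G : (Nd d → ℝ) → Nd d → ℝ} (hG : Loc k G)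
    (x : Nd d) (hx : x.2.length + 1 + k ≤ R + 1) (z : ℝ) (S : Finset (Fin d)) :
    P {ω | ∀ i ∈ S, c (child x i) ω - G (fun y => c y ω) (child x i) ≤ z} =
      ∏ i ∈ S, P {ω | c (child x i) ω - G (fun y => c y ω) (child x i) ≤ z} := by
  classical
  induction S using Finset.induction_on with
  | empty => simp
  | insert i S hi ih =>
    rw [Finset.prod_insert hi, ← ih]
    have h := J_L3_root.blocks P c R E.me E.hi (blk k x i) (⋃ j ∈ S, blk k x j) (blk_ok hx i)
      (by
        intro y hy
        rw [Set.mem_iUnion₂] at hy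
        obtain ⟨j, _, hj⟩ := hy
        exact blk_ok hx j y hj)
      (by
        rw [Set.disjoint_iUnion₂_right]
        intro j hj
        exact blk_disj k x i j (by rintro rfl; exact hi hj))
    have hms : ∀ j, MeasurableSet {g : Nd d → ℝ | g (child x j) - G g (child x j) ≤ z} := fun j =>
      measurableSet_le ((measurable_pi_apply _).sub (hG.me _)) measurable_const
    have h1 := h.measure_inter_preimage_eq_mul {g | g (child x i) - G g (child x i) ≤ z}
      (⋂ j ∈ S, {g | g (child x j) - G g (child x j) ≤ z}) (hms i)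
      (Finset.measurableSet_biInter S fun j _ => hms j)
    have e : ∀ (D : Set (Nd d)) (j : Fin d), blk k x j ⊆ D → ∀ ω,
        (D.indicator (fun y => c y ω)) (child x j) -
          G (D.indicator (fun y => c y ω)) (child x j) =
        c (child x j) ω - G (fun y => c y ω) (child x j) := by
      intro D j hD ω
      rw [Set.indicator_of_mem (hD (child_mem_blk k x j)),
        hG.ind _ _ _ ((desc_sub_blk k x j).trans hD)]
    have e1 : (fun ω => (blk k x i).indicator (fun y => c y ω)) ⁻¹'
        {g | g (child x i) - G g (child x i) ≤ z} =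
        {ω | c (child x i) ω - G (fun y => c y ω) (child x i) ≤ z} := by
      ext ω
      simp only [Set.mem_preimage, Set.mem_ofPred_eq]
      rw [e _ i le_rfl]
    have e2 : (fun ω => (⋃ j ∈ S, blk k x j).indicator (fun y => c y ω)) ⁻¹'
        (⋂ j ∈ S, {g | g (child x j) - G g (child x j) ≤ z}) =
        {ω | ∀ j ∈ S, c (child x j) ω - G (fun y => c y ω) (child x j) ≤ z} := by
      ext ω
      simp only [Set.mem_preimage, Set.mem_ofPred_eq, Set.mem_iInter]
      refine forall_congr' fun j => forall_congr' fun hj => ?_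
      have hs : blk k x j ⊆ ⋃ j ∈ S, blk k x j := fun y hy => Set.mem_iUnion₂.2 ⟨j, hj, hy⟩
      rw [e _ j hs]
    rw [e1, e2] at h1
    rw [← h1]
    congr 1
    ext ω
    simp only [Set.mem_inter_iff, Set.mem_ofPred_eq, Finset.mem_insert, forall_eq_or_imp]

theorem ioi_ici (ν ν' : Measure ℝ) [IsProbabilityMeasure ν] [IsProbabilityMeasure ν']
    (h : ∀ z, ν' (Ioi z) ≤ ν (Ioi z)) (z : ℝ) : ν' (Ici z) ≤ ν (Ici z) := by
  have e : Ici z = ⋂ n : ℕ, Ioi (z - 1 / ((n : ℝ) + 1)) := by
    ext t
    simp only [Set.mem_Ici, Set.mem_iInter, Set.mem_Ioi]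
    constructor
    · intro ht n
      have : (0 : ℝ) < 1 / ((n : ℝ) + 1) := by positivity
      linarith
    · intro ht
      refine le_of_forall_pos_lt_add fun ε hε => ?_
      obtain ⟨n, hn⟩ := exists_nat_one_div_lt hε
      linarith [ht n]
  have ha : Antitone fun n : ℕ => Ioi (z - 1 / ((n : ℝ) + 1)) := by
    intro n m hnm
    refine Ioi_subset_Ioi ?_
    have : 1 / ((m : ℝ) + 1) ≤ 1 / ((n : ℝ) + 1) := by
      apply one_div_le_one_div_of_le (by positivity)
      have : (n : ℝ) ≤ m := by exact_mod_cast hnm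
      linarith
    linarith
  have t1 := tendsto_measure_iInter_atTop (μ := ν) (fun n : ℕ => (measurableSet_Ioi
    (a := z - 1 / ((n : ℝ) + 1))).nullMeasurableSet) ha ⟨0, measure_ne_top _ _⟩
  have t2 := tendsto_measure_iInter_atTop (μ := ν') (fun n : ℕ => (measurableSet_Ioi
    (a := z - 1 / ((n : ℝ) + 1))).nullMeasurableSet) ha ⟨0, measure_ne_top _ _⟩
  rw [e]
  exact le_of_tendsto_of_tendsto' t2 t1 fun n => h _

theorem pair_le (a Y Y' : Ω → ℝ) (ha : Measurable a) (hY : Measurable Y) (hY' : Measurable Y')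
    (hi : IndepFun a Y P) (hi' : IndepFun a Y' P)
    (h : ∀ z, P {ω | z < Y' ω} ≤ P {ω | z < Y ω}) (z : ℝ) :
    P {ω | a ω - Y' ω ≤ z} ≤ P {ω | a ω - Y ω ≤ z} := by
  have hms : MeasurableSet {p : ℝ × ℝ | p.1 - p.2 ≤ z} :=
    measurableSet_le (measurable_fst.sub measurable_snd) measurable_const
  have key : ∀ W : Ω → ℝ, Measurable W → IndepFun a W P →
      P {ω | a ω - W ω ≤ z} = ∫⁻ t, (P.map W) (Ici (t - z)) ∂(P.map a) := by
    intro W hW hI
    have : IsProbabilityMeasure (P.map W) := Measure.isProbabilityMeasure_map hW.aemeasurable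
    have h1 := (indepFun_iff_map_prod_eq_prod_map_map ha.aemeasurable hW.aemeasurable).1 hI
    have h2 : P {ω | a ω - W ω ≤ z} = (P.map (fun ω => (a ω, W ω))) {p : ℝ × ℝ | p.1 - p.2 ≤ z} := by
      rw [Measure.map_apply (ha.prodMk hW) hms]
      rfl
    rw [h2, h1, Measure.prod_apply hms]
    congr 1
    ext t
    congr 1
    ext u
    simp only [Set.mem_preimage, Set.mem_ofPred_eq, Set.mem_Ici]
    constructor <;> intro h <;> linarith
  rw [key Y hY hi, key Y' hY' hi']
  have : IsProbabilityMeasure (P.map Y) := Measure.isProbabilityMeasure_map hY.aemeasurable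
  have : IsProbabilityMeasure (P.map Y') := Measure.isProbabilityMeasure_map hY'.aemeasurable
  refine lintegral_mono fun t => ioi_ici _ _ (fun u => ?_) _
  rw [Measure.map_apply hY measurableSet_Ioi, Measure.map_apply hY' measurableSet_Ioi]
  exact h u

theorem ioc_le (a Y : Ω → ℝ) (ha : Measurable a) (hY : Measurable Y) (hi : IndepFun a Y P)
    (h : ℝ) (w : ENNReal) (hw : ∀ t, (P.map a) (Icc t (t + h)) ≤ w) (z : ℝ) :
    P {ω | z ≤ a ω - Y ω ∧ a ω - Y ω ≤ z + h} ≤ w := by
  have hms : MeasurableSet {p : ℝ × ℝ | z ≤ p.2 - p.1 ∧ p.2 - p.1 ≤ z + h} :=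
    (measurableSet_le measurable_const (measurable_snd.sub measurable_fst)).inter
      (measurableSet_le (measurable_snd.sub measurable_fst) measurable_const)
  have : IsProbabilityMeasure (P.map Y) := Measure.isProbabilityMeasure_map hY.aemeasurable
  have : IsProbabilityMeasure (P.map a) := Measure.isProbabilityMeasure_map ha.aemeasurable
  have h1 := (indepFun_iff_map_prod_eq_prod_map_map hY.aemeasurable ha.aemeasurable).1 hi.symm
  have h2 : P {ω | z ≤ a ω - Y ω ∧ a ω - Y ω ≤ z + h} =
      (P.map (fun ω => (Y ω, a ω))) {p : ℝ × ℝ | z ≤ p.2 - p.1 ∧ p.2 - p.1 ≤ z + h} := by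
    rw [Measure.map_apply (hY.prodMk ha) hms]
    rfl
  rw [h2, h1, Measure.prod_apply hms]
  calc _ ≤ ∫⁻ _, w ∂(P.map Y) := by
        refine lintegral_mono fun t => ?_
        have : Prod.mk t ⁻¹' {p : ℝ × ℝ | z ≤ p.2 - p.1 ∧ p.2 - p.1 ≤ z + h} =
            Icc (z + t) (z + t + h) := by
          ext u
          simp only [Set.mem_preimage, Set.mem_ofPred_eq, Set.mem_Icc]
          constructor <;> intro h <;> constructor <;> linarith [h.1, h.2]
        rw [this]
        exact hw _
    _ = w := by simp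

theorem onestep (hd : 1 ≤ d) (E : Env R K μ M P c) {k : ℕ} {Y Y' : (Nd d → ℝ) → Nd d → ℝ}
    (hY : Loc k Y) (hY' : Loc k Y') (x : Nd d) (hx : x.2.length + 1 + k ≤ R + 1)
    (h : ∀ i z, P {ω | z < Y' (fun y => c y ω) (child x i)} ≤
      P {ω | z < Y (fun y => c y ω) (child x i)}) (z : ℝ) :
    P {ω | z < ⨆ i, max 0 (c (child x i) ω - Y (fun y => c y ω) (child x i))} ≤
      P {ω | z < ⨆ i, max 0 (c (child x i) ω - Y' (fun y => c y ω) (child x i))} := by
  have : Nonempty (Fin d) := ⟨⟨0, hd⟩⟩
  by_cases hz : z < 0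
  · refine measure_mono fun ω _ => ?_
    exact lt_of_lt_of_le hz (Real.iSup_nonneg fun i => le_max_left _ _)
  push Not at hz
  have key : ∀ W : (Nd d → ℝ) → Nd d → ℝ, Loc k W →
      P {ω | z < ⨆ i, max 0 (c (child x i) ω - W (fun y => c y ω) (child x i))} =
      1 - ∏ i, P {ω | c (child x i) ω - W (fun y => c y ω) (child x i) ≤ z} := by
    intro W hW
    rw [← E.prod hW x hx z Finset.univ]
    have hms : MeasurableSet {ω | ∀ i ∈ (Finset.univ : Finset (Fin d)),
        c (child x i) ω - W (fun y => c y ω) (child x i) ≤ z} := by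
      have : {ω | ∀ i ∈ (Finset.univ : Finset (Fin d)),
        c (child x i) ω - W (fun y => c y ω) (child x i) ≤ z} = ⋂ i : Fin d,
          {ω | c (child x i) ω - W (fun y => c y ω) (child x i) ≤ z} := by
        ext ω
        simp
      rw [this]
      exact MeasurableSet.iInter fun i =>
        measurableSet_le ((E.me _).sub (E.locm hW _)) measurable_const
    rw [← prob_compl_eq_one_sub hms]
    congr 1
    ext ω
    simp only [Set.mem_ofPred_eq, Set.mem_compl_iff, Finset.mem_univ, true_implies]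
    rw [← not_le, not_iff_not]
    constructor
    · intro h i
      exact (le_max_right _ _).trans ((le_ciSup
        (f := fun i : Fin d => max 0 (c (child x i) ω - W (fun y => c y ω) (child x i)))
        (Set.finite_range _).bddAbove i).trans h)
    · intro h
      exact ciSup_le fun i => max_le hz (h i)
  rw [key Y hY, key Y' hY']
  refine tsub_le_tsub_left (Finset.prod_le_prod' fun i _ => ?_) _
  have hl : 0 < (child x i).2.length := by rw [len_child]; omega
  have hl' : (child x i).2.length + k ≤ R + 1 := by rw [len_child]; omega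
  exact pair_le _ _ _ (E.me _) (E.locm hY _) (E.locm hY' _) (E.ind hY _ hl hl')
    (E.ind hY' _ hl hl') (h i) z

theorem cmp (hd : 1 ≤ d) (E : Env R K μ M P c) {k : ℕ} {G G' : (Nd d → ℝ) → Nd d → ℝ}
    (hG : Loc k G) (hG' : Loc k G') : ∀ (n : ℕ) (x : Nd d), x.2.length + n + k ≤ R + 1 →
    (∀ y : Nd d, y.2.length = x.2.length + n → ∀ z, P {ω | z < G' (fun y => c y ω) y} ≤
      P {ω | z < G (fun y => c y ω) y}) →
    (Even n → ∀ z, P {ω | z < X (fun y => c y ω) (G' (fun y => c y ω)) n x} ≤
      P {ω | z < X (fun y => c y ω) (G (fun y => c y ω)) n x}) ∧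
    (Odd n → ∀ z, P {ω | z < X (fun y => c y ω) (G (fun y => c y ω)) n x} ≤
      P {ω | z < X (fun y => c y ω) (G' (fun y => c y ω)) n x}) := by
  intro n
  induction n with
  | zero =>
    intro x hx h
    refine ⟨fun _ => h x (by simp), fun h0 => absurd h0 (by decide)⟩
  | succ n ih =>
    intro x hx h
    have hc : ∀ i, _ := fun i => ih (child x i) (by rw [len_child]; omega)
      (fun y hy => h y (by rw [len_child] at hy; omega))
    constructor
    · intro he
      have ho : Odd n := by
        rcases Nat.even_or_odd n with h1 | h1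
        · exact absurd he (by rw [Nat.even_add_one]; exact not_not.2 h1)
        · exact h1
      exact onestep hd E (hG'.step n) (hG.step n) x (by omega) fun i z => (hc i).2 ho z
    · intro he
      have ho : Even n := by
        rcases Nat.even_or_odd n with h1 | h1
        · exact h1
        · exact absurd (h1.add_one) (Nat.not_even_iff_odd.2 he)
      exact onestep hd E (hG.step n) (hG'.step n) x (by omega) fun i z => (hc i).1 ho z

end Pool.Agent.K6.H21.MW
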