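import Pool.Agent.K6.H21.MW.Det

set_option autoImplicit false

/-! The window lemma. -/

namespace Pool.Agent.K6.H21.MW

open Set Pool.Agent.Helper31_MW

variable {d : ℕ}

open Classical in
/-- The patterns: local brackets `[a, b]` on the levels up to `L₀ + N`, global extremes below. -/
noncomputable def pat (K : Set (Nd d)) (a b : Nd d → ℝ) (m M : ℝ) (p L₀ N k : ℕ) (hl : Prop) :
    Nd d → ℝ := fun y =>
  if y ∈ K then
    (if y.2.length ≤ L₀ + N then
      (if y.2.length ≤ L₀ + k then (if Odd (y.2.length + p) then b y else a y)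
        else (if Odd (y.2.length + p) then a y else b y))
      else (if hl then (if Odd (y.2.length + p) then M else m)
        else (if Odd (y.2.length + p) then m else M)))
  else 0

/-- Brackets. -/
structure Br (K : Set (Nd d)) (a b c : Nd d → ℝ) (m M η₀ η₁ : ℝ) : Prop where
  m0 : 0 ≤ m
  mM : m < M
  h0 : 0 ≤ η₁
  hc0 : ∀ y, y ∉ K → c y = 0
  ha : ∀ y ∈ K, m ≤ a y
  hb : ∀ y ∈ K, b y ≤ M
  hab : ∀ y ∈ K, a y + η₁ ≤ b y
  hab' : ∀ y ∈ K, b y ≤ a y + η₀
  hac : ∀ y ∈ K, a y ≤ c y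
  hcb : ∀ y ∈ K, c y ≤ b y

theorem X_bd (hd : 1 ≤ d) (c β : Nd d → ℝ) (B : ℝ) (hc : ∀ y, c y ≤ B) (hβ0 : ∀ y, 0 ≤ β y)
    (hβ : ∀ y, β y ≤ B) (hB : 0 ≤ B) : ∀ (n : ℕ) (x : Nd d), 0 ≤ X c β n x ∧ X c β n x ≤ B := by
  intro n
  induction n with
  | zero => intro x; exact ⟨hβ0 x, hβ x⟩
  | succ n ih =>
    intro x
    refine ⟨X_nonneg' _ _ _ _, X_le hd _ _ _ _ _ hB fun i => ?_⟩
    linarith [(ih (child x i)).1, hc (child x i)]

theorem pat_zero (K : Set (Nd d)) (a b : Nd d → ℝ) (m M : ℝ) (p L₀ N k : ℕ) (hl : Prop) :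
    ∀ y, y ∉ K → pat K a b m M p L₀ N k hl y = 0 := fun y hy => by
  unfold pat
  rw [if_neg hy]

theorem pat_mem (K : Set (Nd d)) (a b : Nd d → ℝ) (m M : ℝ) (p L₀ N k : ℕ) (hl : Prop)
    (y : Nd d) (hy : y ∈ K) : pat K a b m M p L₀ N k hl y = a y ∨
      pat K a b m M p L₀ N k hl y = b y ∨ pat K a b m M p L₀ N k hl y = m ∨
      pat K a b m M p L₀ N k hl y = M := by
  unfold pat
  rw [if_pos hy]
  split_ifs <;> simp

theorem pat_indep (hd : 1 ≤ d) (K : Set (Nd d)) (a b c : Nd d → ℝ) (m M η₀ η₁ B : ℝ)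
    (hB : Br K a b c m M η₀ η₁) (hMB : M ≤ B) (p N k₂ k : ℕ) (hl : Prop) (x : Nd d)
    (hp : Even (x.2.length + p)) (hN : Even N) (hk₂ : B < k₂ * (M - m))
    (β β' : Nd d → ℝ) (hβ0 : ∀ y, 0 ≤ β y) (hβ : ∀ y, β y ≤ B) (hβ'0 : ∀ y, 0 ≤ β' y)
    (hβ' : ∀ y, β' y ≤ B) :
    X (pat K a b m M p x.2.length N k hl) β (N + (2 * k₂ + 2)) x =
      X (pat K a b m M p x.2.length N k hl) β' (N + (2 * k₂ + 2)) x := by
  classical
  set q := pat K a b m M p x.2.length N k hl with hq
  rw [(P2_shift hd q β).2.1, (P2_shift hd q β').2.1]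
  apply dep_b
  intro l hl'
  set w : Nd d := (x.1, l ++ x.2) with hw
  have hwl : w.2.length = x.2.length + N := by
    simp only [hw, List.length_append, hl']
    ring
  have hwp : Even (w.2.length + p) := by
    rw [hwl]
    rcases hp with ⟨u, hu⟩
    rcases hN with ⟨v, hv⟩
    exact ⟨u + v, by omega⟩
  have hMm : 0 < M - m := sub_pos.2 hB.mM
  have e1 : ((2 * k₂ + 1) / 2 : ℕ) = k₂ := by omega
  have e2 : ((2 * k₂ + 2) / 2 : ℕ) = k₂ + 1 := by omega
  by_cases h : hl
  · refine high_block hd K p (x.2.length + N) q m M B hB.mM.le hMB (pat_zero _ _ _ _ _ _ _ _ _ _)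
      ?_ ?_ β β' hβ0 hβ hβ'0 hβ' (2 * k₂ + 1) (by rw [e1]; exact hk₂) w hwl.ge hwp
    · intro y hy hyl ho
      simp only [hq, pat]
      rw [if_pos hy, if_neg (by omega), if_pos h, if_pos ho]
    · intro y hy hyl he
      simp only [hq, pat]
      rw [if_pos hy, if_neg (by omega), if_pos h, if_neg (Nat.not_odd_iff_even.2 he)]
  · refine low_block' hd K p (x.2.length + N) q m M B hB.mM.le hMB (pat_zero _ _ _ _ _ _ _ _ _ _)
      ?_ ?_ β β' hβ0 hβ hβ'0 hβ' (2 * k₂ + 2) (by rw [e2]; push_cast; nlinarith) w hwl.ge hwp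
    · intro y hy hyl ho
      simp only [hq, pat]
      rw [if_pos hy, if_neg (by omega), if_neg h, if_pos ho]
    · intro y hy hyl he
      simp only [hq, pat]
      rw [if_pos hy, if_neg (by omega), if_neg h, if_neg (Nat.not_odd_iff_even.2 he)]

/-- **Window lemma.** -/
theorem window (hd : 1 ≤ d) (K : Set (Nd d)) (a b c : Nd d → ℝ) (m M η₀ η₁ B : ℝ)
    (hB : Br K a b c m M η₀ η₁) (hMB : M ≤ B) (p k₁ k₂ : ℕ) (x : Nd d)
    (hp : Even (x.2.length + p)) (hk₁ : B ≤ 2 * k₁ * η₁) (hk₂ : B < k₂ * (M - m))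
    (β β' : Nd d → ℝ) (hβ0 : ∀ y, 0 ≤ β y) (hβ : ∀ y, β y ≤ B) (hβ'0 : ∀ y, 0 ≤ β' y)
    (hβ' : ∀ y, β' y ≤ B) (A : ℝ)
    (h1 : X c β (2 * k₁ + (2 * k₂ + 2)) x < A) (h2 : A ≤ X c β' (2 * k₁ + (2 * k₂ + 2)) x) :
    ∃ (k : ℕ) (hl : Prop), A ≤ X (pat K a b m M p x.2.length (2 * k₁) k hl) (fun _ => 0)
        (2 * k₁ + (2 * k₂ + 2)) x ∧
      X (pat K a b m M p x.2.length (2 * k₁) k hl) (fun _ => 0) (2 * k₁ + (2 * k₂ + 2)) x ≤
        A + η₀ := by
  classical
  have hMm : 0 < M - m := sub_pos.2 hB.mM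
  have hB0 : 0 ≤ B := by linarith [hB.m0]
  have hη₀ : 0 ≤ η₀ ∨ K = ∅ := by
    rcases K.eq_empty_or_nonempty with h | ⟨y, hy⟩
    · exact Or.inr h
    · left
      linarith [hB.hab y hy, hB.hab' y hy, hB.h0]
  set L₀ := x.2.length with hL₀
  set N := 2 * k₁ with hN
  have hNe : Even N := ⟨k₁, by omega⟩
  set T := N + (2 * k₂ + 2) with hT
  let ξ : ℕ → Prop → ℝ := fun k hl => X (pat K a b m M p L₀ N k hl) (fun _ => 0) T x
  have hind : ∀ k hl (β'' : Nd d → ℝ), (∀ y, 0 ≤ β'' y) → (∀ y, β'' y ≤ B) →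
      X (pat K a b m M p L₀ N k hl) β'' T x = ξ k hl := fun k hl β'' u v =>
    pat_indep hd K a b c m M η₀ η₁ B hB hMB p N k₂ k hl x hp hNe hk₂ β'' (fun _ => 0) u v
      (fun _ => le_rfl) (fun _ => hB0)
  have hab : ∀ y ∈ K, a y ≤ b y := fun y hy => by linarith [hB.hab y hy, hB.h0]
  -- lowest pattern
  have l1 : ξ 0 False ≤ X c β T x := by
    rw [← hind 0 False β hβ0 hβ]
    refine (mono hd L₀ p _ c β β ?_ (fun y => ⟨fun _ => le_rfl, fun _ => le_rfl⟩) T x le_rfl).1 hp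
    intro y hy
    by_cases hK : y ∈ K
    · simp only [pat]
      rw [if_pos hK]
      have u1 := hB.ha y hK
      have u2 := hB.hb y hK
      have u3 := hB.hac y hK
      have u4 := hB.hcb y hK
      refine ⟨fun ho => ?_, fun he => ?_⟩
      · rw [if_neg (by omega : ¬ y.2.length ≤ L₀ + 0), if_pos ho, if_pos ho]
        split_ifs <;> first | linarith | (exfalso; tauto)
      · rw [if_neg (by omega : ¬ y.2.length ≤ L₀ + 0), if_neg (Nat.not_odd_iff_even.2 he),
          if_neg (Nat.not_odd_iff_even.2 he)]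
        split_ifs <;> first | linarith | (exfalso; tauto) | exact absurd (by assumption) (Nat.not_odd_iff_even.2 he)
    · rw [pat_zero _ _ _ _ _ _ _ _ _ _ y hK, hB.hc0 y hK]
      exact ⟨fun _ => le_rfl, fun _ => le_rfl⟩
  -- highest pattern
  have l2 : X c β' T x ≤ ξ N True := by
    rw [← hind N True β' hβ'0 hβ']
    refine (mono hd L₀ p c _ β' β' ?_ (fun y => ⟨fun _ => le_rfl, fun _ => le_rfl⟩) T x le_rfl).1 hp
    intro y hy
    by_cases hK : y ∈ K
    · simp only [pat]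
      rw [if_pos hK]
      have u1 := hB.ha y hK
      have u2 := hB.hb y hK
      have u3 := hB.hac y hK
      have u4 := hB.hcb y hK
      refine ⟨fun ho => ?_, fun he => ?_⟩
      · rw [if_pos ho]
        split_ifs <;> first | linarith | (exfalso; tauto)
      · rw [if_neg (Nat.not_odd_iff_even.2 he)]
        split_ifs <;> first | linarith | (exfalso; tauto) | exact absurd (by assumption) (Nat.not_odd_iff_even.2 he)
    · rw [pat_zero _ _ _ _ _ _ _ _ _ _ y hK, hB.hc0 y hK]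
      exact ⟨fun _ => le_rfl, fun _ => le_rfl⟩
  -- comparison
  have hle : ∀ k hl y, pat K a b m M p L₀ N k hl y ≤ B := by
    intro k hl y
    by_cases hK : y ∈ K
    · rcases pat_mem K a b m M p L₀ N k hl y hK with h | h | h | h <;> rw [h] <;>
        linarith [hB.hb y hK, hab y hK]
    · rw [pat_zero _ _ _ _ _ _ _ _ _ _ y hK]; exact hB0
  have l3 : ξ 0 True ≤ ξ N False := by
    simp only [ξ]
    rw [hT, (P2_shift hd _ (fun _ => 0)).2.1 N, (P2_shift hd _ (fun _ => 0)).2.1 N]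
    have := ecomp hd K p L₀ (L₀ + N) (pat K a b m M p L₀ N 0 True) (pat K a b m M p L₀ N N False)
      (X (pat K a b m M p L₀ N 0 True) (fun _ => 0) (2 * k₂ + 2))
      (X (pat K a b m M p L₀ N N False) (fun _ => 0) (2 * k₂ + 2)) η₁ B hB.h0
      (pat_zero _ _ _ _ _ _ _ _ _ _) (pat_zero _ _ _ _ _ _ _ _ _ _) ?_ ?_
      (fun y => (X_bd hd _ _ B (hle _ _) (fun _ => le_rfl) (fun _ => hB0) hB0 _ y).2)
      (fun y => (X_bd hd _ _ B (hle _ _) (fun _ => le_rfl) (fun _ => hB0) hB0 _ y).1)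
      (fun y => (X_bd hd _ _ B (hle _ _) (fun _ => le_rfl) (fun _ => hB0) hB0 _ y).1)
      k₁ x le_rfl le_rfl hp
    · rw [max_eq_left (by linarith)] at this
      linarith
    · intro y hy y1 y2 ho
      simp only [pat]
      rw [if_pos hy, if_pos hy]
      split_ifs <;> first | (exfalso; omega) | exact hB.hab y hy | (exfalso; tauto)
    · intro y hy y1 y2 he
      simp only [pat]
      rw [if_pos hy, if_pos hy]
      split_ifs <;> first
        | (exfalso; omega)
        | exact hB.hab y hy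
        | (exfalso; tauto)
        | exact absurd (by assumption) (Nat.not_odd_iff_even.2 he)
  -- steps
  have l4 : ∀ hl, ∀ k < N, |ξ k hl - ξ (k + 1) hl| ≤ max 0 η₀ := by
    intro hl k hk
    have := lip hd (pat K a b m M p L₀ N k hl) (pat K a b m M p L₀ N (k + 1) hl) (fun _ => 0)
      (fun _ => 0) (fun l => if l = L₀ + k + 1 then max 0 η₀ else 0) 0 ?_ (by simp) T x
    · refine this.trans ?_
      rw [add_zero]
      have e : ∀ k' ∈ Finset.range T, (if x.2.length + k' + 1 = L₀ + k + 1 then max 0 η₀ else 0) =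
          if k' = k then max 0 η₀ else 0 := by
        intro k' _
        by_cases h : k' = k
        · rw [if_pos h, if_pos (by rw [h])]
        · rw [if_neg h, if_neg (by rw [← hL₀]; omega)]
      rw [Finset.sum_congr rfl e, Finset.sum_ite_eq']
      split_ifs
      · exact le_rfl
      · exact le_max_left _ _
    · intro y
      by_cases hK : y ∈ K
      · simp only [pat]
        rw [if_pos hK, if_pos hK]
        have u := hab y hK
        have v := hB.hab' y hK
        have v2 := le_max_right 0 η₀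
        have v3 := le_max_left 0 η₀
        split_ifs <;> first
          | (exfalso; omega)
          | (rw [sub_self, abs_zero]; first | exact le_rfl | exact v3)
          | (rw [abs_sub_comm, abs_of_nonneg (by linarith)]; linarith)
          | (rw [abs_of_nonneg (by linarith)]; linarith)
          | (exfalso; tauto)
      · rw [pat_zero _ _ _ _ _ _ _ _ _ _ y hK, pat_zero _ _ _ _ _ _ _ _ _ _ y hK]
        simp only [sub_self, abs_zero]
        split_ifs
        · exact le_max_left _ _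
        · exact le_rfl
  have hmain : ∃ k hl, A ≤ ξ k hl ∧ ξ k hl ≤ A + max 0 η₀ := by
    by_cases hc1 : A ≤ ξ N False
    · obtain ⟨k, _, u, v⟩ := ivt (fun k => ξ k False) A (max 0 η₀) N (lt_of_le_of_lt l1 h1) hc1
        (l4 False)
      exact ⟨k, False, u, v⟩
    · push Not at hc1
      obtain ⟨k, _, u, v⟩ := ivt (fun k => ξ k True) A (max 0 η₀) N (lt_of_le_of_lt l3 hc1)
        (h2.trans l2) (l4 True)
      exact ⟨k, True, u, v⟩
  rcases hη₀ with h | h
  · rw [max_eq_right h] at hmain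
    exact hmain
  · exfalso
    -- no edges: both values vanish
    have hz : ∀ β'' : Nd d → ℝ, (∀ y, 0 ≤ β'' y) → X c β'' T x = 0 := by
      intro β'' hb
      have : T = (N + 2 * k₂ + 1) + 1 := by omega
      rw [this]
      refine le_antisymm (X_le hd _ _ _ _ _ le_rfl fun i => ?_) (X_nonneg' _ _ _ _)
      rw [hB.hc0 _ (by rw [h]; exact Set.notMem_empty _)]
      have : 0 ≤ X c β'' (N + 2 * k₂ + 1) (child x i) := X_nonneg' _ _ _ _
      linarith
    rw [hz β hβ0] at h1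
    rw [hz β' hβ'0] at h2
    linarith

end Pool.Agent.K6.H21.MW
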